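import Pool.Agent.H433.HG.Loc

/-!
Combinatorics of the sets with `g + 1` elements and of the iterated differences.
-/

set_option autoImplicit false
set_option linter.unusedSectionVars false

open Finset

namespace Pool.Agent.H433.HG

open Pool.Agent.H433.AC Pool.Agent.H433.GT

variable {g : ℕ}

/-- the pairs which are not separated by `S` -/
def Gs (S : Finset (Fin (2 * g + 1))) : Finset (Fin (2 * g + 1) × Fin (2 * g + 1)) :=
  (prs (2 * g + 1)).filter fun q => (q.1 ∈ S ↔ q.2 ∈ S)

/-- the pairs which are separated by `S` -/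
def Ns (S : Finset (Fin (2 * g + 1))) : Finset (Fin (2 * g + 1) × Fin (2 * g + 1)) :=
  (prs (2 * g + 1)).filter fun q => ¬ (q.1 ∈ S ↔ q.2 ∈ S)

theorem mem_prs {n : ℕ} {p : Fin n × Fin n} : p ∈ prs n ↔ p.1 < p.2 := by
  unfold prs
  rw [mem_filter]
  simp

theorem Gs_sub (S : Finset (Fin (2 * g + 1))) : Gs S ⊆ prs (2 * g + 1) := filter_subset _ _

theorem Ns_sub (S : Finset (Fin (2 * g + 1))) : Ns S ⊆ prs (2 * g + 1) := filter_subset _ _

/-- the ordered pair -/
def srt {n : ℕ} (p : Fin n × Fin n) : Fin n × Fin n := if p.1 < p.2 then p else p.swap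

theorem srt_mem {S : Finset (Fin (2 * g + 1))} {p : Fin (2 * g + 1) × Fin (2 * g + 1)}
    (hp : p ∈ S ×ˢ Sᶜ) : srt p ∈ Ns S := by
  rw [mem_product, mem_compl] at hp
  unfold srt Ns
  rw [mem_filter, mem_prs]
  have hne : p.1 ≠ p.2 := fun h => hp.2 (h ▸ hp.1)
  split_ifs with h
  · exact ⟨h, fun h' => hp.2 (h'.1 hp.1)⟩
  · exact ⟨lt_of_le_of_ne (not_lt.1 h) hne.symm, fun h' => hp.2 (h'.2 hp.1)⟩

theorem srt_inj {S : Finset (Fin (2 * g + 1))} {p q : Fin (2 * g + 1) × Fin (2 * g + 1)}
    (hp : p ∈ S ×ˢ Sᶜ) (hq : q ∈ S ×ˢ Sᶜ) (h : srt p = srt q) : p = q := by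
  rw [mem_product, mem_compl] at hp hq
  unfold srt at h
  split_ifs at h with h1 h2 h2
  · exact h
  · exact absurd hp.1 (h ▸ hq.2)
  · exact absurd hq.1 (h ▸ hp.2)
  · exact Prod.swap_injective h

theorem srt_surj {S : Finset (Fin (2 * g + 1))} {q : Fin (2 * g + 1) × Fin (2 * g + 1)}
    (hq : q ∈ Ns S) : ∃ p, ∃ _ : p ∈ S ×ˢ Sᶜ, srt p = q := by
  unfold Ns at hq
  rw [mem_filter, mem_prs] at hq
  obtain ⟨hlt, hs⟩ := hq
  by_cases h1 : q.1 ∈ S
  · have h2 : q.2 ∉ S := fun h2 => hs ⟨fun _ => h2, fun _ => h1⟩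
    exact ⟨q, mem_product.2 ⟨h1, mem_compl.2 h2⟩, by unfold srt; rw [if_pos hlt]⟩
  · have h2 : q.2 ∈ S := by
      by_contra h2
      exact hs ⟨fun h => absurd h h1, fun h => absurd h h2⟩
    refine ⟨q.swap, mem_product.2 ⟨h2, mem_compl.2 h1⟩, ?_⟩
    unfold srt
    rw [if_neg (by simpa using hlt.le), Prod.swap_swap]

theorem card_Ns {S : Finset (Fin (2 * g + 1))} (hS : S ∈ Sp g) : (Ns S).card = (g + 1) * g := by
  have h1 : (Ns S).card = (S ×ˢ Sᶜ).card :=
    (card_bij (fun p _ => srt p) (fun p hp => srt_mem hp)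
      (fun p hp q hq h => srt_inj hp hq h) fun q hq => by
        obtain ⟨p, hp, h⟩ := srt_surj hq
        exact ⟨p, hp, h⟩).symm
  rw [h1, card_product, mem_Sp.1 hS, card_co (mem_Sp.1 hS)]

theorem card_prs (n : ℕ) : 2 * (prs n).card + n = n ^ 2 := by
  have h1 : ((univ : Finset (Fin n × Fin n)).filter fun p => p.2 < p.1).card = (prs n).card := by
    refine card_bij (fun p _ => p.swap) (fun p hp => ?_) (fun p _ q _ h => Prod.swap_injective h)
      fun q hq => ⟨q.swap, ?_, Prod.swap_swap q⟩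
    · rw [mem_prs]
      exact (mem_filter.1 hp).2
    · rw [mem_filter]
      exact ⟨mem_univ _, mem_prs.1 hq⟩
  have h2 : ((univ : Finset (Fin n × Fin n)).filter fun p => p.1 = p.2).card = n := by
    have : ((univ : Finset (Fin n × Fin n)).filter fun p => p.1 = p.2) =
        (univ : Finset (Fin n)).image fun i => (i, i) := by
      ext ⟨i, j⟩
      simp only [mem_filter, mem_univ, true_and, mem_image, Prod.mk.injEq]
      constructor
      · rintro rfl
        exact ⟨i, rfl, rfl⟩
      · rintro ⟨k, rfl, rfl⟩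
        rfl
    rw [this, card_image_of_injective _ fun i j h => (Prod.mk.inj h).1, card_univ,
      Fintype.card_fin]
  have h3 := card_filter_add_card_filter_not (s := (univ : Finset (Fin n × Fin n)))
    (fun p => p.1 < p.2)
  have h4 : (((univ : Finset (Fin n × Fin n)).filter fun p => ¬ p.1 < p.2)).card =
      ((univ : Finset (Fin n × Fin n)).filter fun p => p.2 < p.1).card +
      ((univ : Finset (Fin n × Fin n)).filter fun p => p.1 = p.2).card := by
    rw [← card_union_of_disjoint]
    · congr 1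
      ext p
      simp only [mem_filter, mem_univ, true_and, mem_union]
      rw [not_lt, le_iff_lt_or_eq]
      exact or_congr Iff.rfl eq_comm
    · rw [disjoint_filter]
      intro p _ hlt heq
      rw [heq] at hlt
      exact lt_irrefl _ hlt
  rw [h4, h1, h2] at h3
  have h5 : (univ : Finset (Fin n × Fin n)).card = n * n := by
    rw [card_univ, Fintype.card_prod, Fintype.card_fin]
  have h6 : ((univ : Finset (Fin n × Fin n)).filter fun p => p.1 < p.2).card = (prs n).card := rfl
  rw [h6, h5] at h3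
  nlinarith

theorem card_Gs {S : Finset (Fin (2 * g + 1))} (hS : S ∈ Sp g) : (Gs S).card = g ^ 2 := by
  have h1 := card_filter_add_card_filter_not (s := prs (2 * g + 1))
    (fun q => (q.1 ∈ S ↔ q.2 ∈ S))
  have h2 := card_Ns hS
  have h3 := card_prs (2 * g + 1)
  have h4 : (Gs S).card + (Ns S).card = (prs (2 * g + 1)).card := h1
  nlinarith

section ring

variable {R : Type*} [CommRing R]

/-- the product of the differences of the points in the same part -/
def W (a : Fin (2 * g + 1) → R) (S : Finset (Fin (2 * g + 1))) : R :=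
  ∏ q ∈ Gs S, (a q.1 - a q.2)

theorem W_mul (a : Fin (2 * g + 1) → R) (S : Finset (Fin (2 * g + 1))) :
    W a S * ∏ q ∈ Ns S, (a q.1 - a q.2) = ∏ q ∈ prs (2 * g + 1), (a q.1 - a q.2) :=
  prod_filter_mul_prod_filter_not _ _ _

end ring

variable {K : Type} [Field K]

theorem rs_eq (a : Fin (2 * g + 1) → K) (S : Finset (Fin (2 * g + 1))) :
    ∃ e : K, e ^ 2 = 1 ∧ rs a S = e * ∏ q ∈ Ns S, (a q.1 - a q.2) := by
  refine ⟨∏ p ∈ S ×ˢ Sᶜ, (if p.1 < p.2 then 1 else -1), ?_, ?_⟩
  · rw [← prod_pow]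
    refine prod_eq_one fun p _ => ?_
    split_ifs <;> ring
  · have h1 : ∏ q ∈ Ns S, (a q.1 - a q.2) =
        ∏ p ∈ S ×ˢ Sᶜ, (a (srt p).1 - a (srt p).2) :=
      (prod_bij (fun p _ => srt p) (fun p hp => srt_mem hp)
        (fun p hp q hq h => srt_inj hp hq h) (fun q hq => srt_surj hq) fun p _ => rfl).symm
    rw [h1, ← prod_mul_distrib]
    unfold rs
    rw [← prod_product']
    refine prod_congr rfl fun p _ => ?_
    unfold srt
    split_ifs
    · ring
    · simp only [Prod.fst_swap, Prod.snd_swap]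
      ring

theorem rs_ne {a : Fin (2 * g + 1) → K} (ha : Function.Injective a)
    (S : Finset (Fin (2 * g + 1))) : rs a S ≠ 0 := by
  unfold rs
  refine prod_ne_zero_iff.2 fun i hi => prod_ne_zero_iff.2 fun j hj => ?_
  rw [sub_ne_zero]
  intro h
  have := ha h
  rw [← this] at hj
  exact (mem_compl.1 hj) hi

/-- the relation between the two products -/
theorem W_rs {a : Fin (2 * g + 1) → K} (ha : Function.Injective a)
    (S : Finset (Fin (2 * g + 1))) :
    ∃ e : K, e ^ 2 = 1 ∧
      W a S = e * ((∏ q ∈ prs (2 * g + 1), (a q.1 - a q.2)) * (rs a S)⁻¹) := by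
  obtain ⟨e, he, h1⟩ := rs_eq a S
  have h2 := rs_ne ha S
  have h3 := W_mul a S
  refine ⟨e, he, ?_⟩
  rw [← h3]
  have h4 : e ≠ 0 := by
    rintro rfl
    norm_num at he
  have h5 : ∏ q ∈ Ns S, (a q.1 - a q.2) ≠ 0 := by
    intro h0
    rw [h0, mul_zero] at h1
    exact h2 h1
  rw [h1]
  field_simp

theorem apart_cons {p : Fin (2 * g + 1) × Fin (2 * g + 1)}
    {l : List (Fin (2 * g + 1) × Fin (2 * g + 1))} {B : Finset (Fin (2 * g + 1))}
    (h : Apart (p :: l) B) : Apart l (insert p.1 B) ∧ Apart l (insert p.2 B) := by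
  obtain ⟨h1, h2, h3⟩ := h
  have h4 := h2 p (List.mem_cons_self)
  rw [List.map_cons, List.map_cons, List.cons_append, List.nodup_cons] at h1
  obtain ⟨h5, h6⟩ := h1
  rw [List.nodup_middle, List.nodup_cons] at h6
  obtain ⟨h7, h8⟩ := h6
  rw [List.length_cons] at h3
  refine ⟨⟨h8, fun q hq => ?_, ?_⟩, h8, fun q hq => ?_, ?_⟩
  · have h9 := h2 q (List.mem_cons_of_mem _ hq)
    refine ⟨h9.1, fun hm => ?_, fun hm => ?_⟩
    · rcases mem_insert.1 hm with h | h
      · apply h5
        rw [← h]
        exact List.mem_append_left _ (List.mem_map_of_mem hq)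
      · exact h9.2.1 h
    · rcases mem_insert.1 hm with h | h
      · apply h5
        rw [← h]
        exact List.mem_append_right _ (List.mem_cons_of_mem _ (List.mem_map_of_mem hq))
      · exact h9.2.2 h
  · rw [card_insert_of_notMem h4.2.1]
    omega
  · have h9 := h2 q (List.mem_cons_of_mem _ hq)
    refine ⟨h9.1, fun hm => ?_, fun hm => ?_⟩
    · rcases mem_insert.1 hm with h | h
      · apply h7
        rw [← h]
        exact List.mem_append_left _ (List.mem_map_of_mem hq)
      · exact h9.2.1 h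
    · rcases mem_insert.1 hm with h | h
      · apply h7
        rw [← h]
        exact List.mem_append_right _ (List.mem_map_of_mem hq)
      · exact h9.2.2 h
  · rw [card_insert_of_notMem h4.2.2]
    omega

theorem apart_swap {p q : Fin (2 * g + 1) × Fin (2 * g + 1)}
    {l : List (Fin (2 * g + 1) × Fin (2 * g + 1))} {B : Finset (Fin (2 * g + 1))}
    (h : Apart (p :: q :: l) B) : Apart (q :: p :: l) B := by
  obtain ⟨h1, h2, h3⟩ := h
  have hp : (p :: q :: l).Perm (q :: p :: l) := List.Perm.swap _ _ _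
  refine ⟨?_, fun r hr => h2 r (hp.mem_iff.2 hr), ?_⟩
  · exact (List.Perm.nodup_iff ((hp.map Prod.fst).append (hp.map Prod.snd))).1 h1
  · rw [← hp.length_eq]
    exact h3

theorem dl_sub_const (x : Finset (Fin (2 * g + 1)) → K) (c : K)
    (l : List (Fin (2 * g + 1) × Fin (2 * g + 1))) (B : Finset (Fin (2 * g + 1))) :
    dl (fun S => x S - c) l B = dl x l B - if l = [] then c else 0 := by
  induction l generalizing B with
  | nil => simp [dl]
  | cons p l ih =>
    simp only [dl]
    rw [ih, ih, if_neg (List.cons_ne_nil _ _)]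
    ring

theorem dl_sub_const' (x : Finset (Fin (2 * g + 1)) → K) (c : K)
    {l : List (Fin (2 * g + 1) × Fin (2 * g + 1))} (hl : l ≠ [])
    (B : Finset (Fin (2 * g + 1))) : dl (fun S => x S - c) l B = dl x l B := by
  rw [dl_sub_const, if_neg hl, sub_zero]

theorem dl_smul (x : Finset (Fin (2 * g + 1)) → K) (c : K)
    (l : List (Fin (2 * g + 1) × Fin (2 * g + 1))) (B : Finset (Fin (2 * g + 1))) :
    dl (fun S => c * x S) l B = c * dl x l B := by
  induction l generalizing B with
  | nil => simp [dl]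
  | cons p l ih =>
    simp only [dl]
    rw [ih, ih]
    ring

section val

variable {Γ : Type*} [LinearOrderedCommGroupWithZero Γ] {w : Valuation K Γ}

theorem dl_le {x : Finset (Fin (2 * g + 1)) → K} {b : Γ} (hb : ∀ S ∈ Sp g, w (x S) ≤ b)
    (l : List (Fin (2 * g + 1) × Fin (2 * g + 1))) (B : Finset (Fin (2 * g + 1)))
    (h : Apart l B) : w (dl x l B) ≤ b := by
  induction l generalizing B with
  | nil =>
    have h3 := h.2.2
    rw [List.length_nil] at h3
    exact hb _ (mem_Sp.2 h3)
  | cons p l ih =>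
    obtain ⟨h1, h2⟩ := apart_cons h
    exact w.map_sub_le (ih _ h1) (ih _ h2)

theorem dl_le_aux {x : Finset (Fin (2 * g + 1)) → K} {b : Γ} {p : Fin (2 * g + 1) × Fin (2 * g + 1)}
    (hb : ∀ T : Finset (Fin (2 * g + 1)), T.card = g → p.1 ∉ T → p.2 ∉ T →
      w (x (insert p.1 T) - x (insert p.2 T)) ≤ b)
    (l : List (Fin (2 * g + 1) × Fin (2 * g + 1))) (B : Finset (Fin (2 * g + 1)))
    (h : Apart (p :: l) B) : w (dl x l (insert p.1 B) - dl x l (insert p.2 B)) ≤ b := by
  induction l generalizing B with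
  | nil =>
    have h3 := h.2.2
    rw [List.length_singleton] at h3
    have h4 := h.2.1 p List.mem_cons_self
    exact hb B (by omega) h4.2.1 h4.2.2
  | cons q l ih =>
    obtain ⟨h1, h2⟩ := apart_cons (apart_swap h)
    have e1 := ih _ h1
    have e2 := ih _ h2
    simp only [dl]
    rw [Finset.insert_comm q.1 p.1, Finset.insert_comm q.2 p.1, Finset.insert_comm q.1 p.2,
      Finset.insert_comm q.2 p.2]
    have e3 := w.map_sub_le e1 e2
    rwa [sub_sub_sub_comm] at e3

theorem dl_le_mem {x : Finset (Fin (2 * g + 1)) → K} {b : Γ} {p : Fin (2 * g + 1) × Fin (2 * g + 1)}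
    (hb : ∀ T : Finset (Fin (2 * g + 1)), T.card = g → p.1 ∉ T → p.2 ∉ T →
      w (x (insert p.1 T) - x (insert p.2 T)) ≤ b)
    (l : List (Fin (2 * g + 1) × Fin (2 * g + 1))) (B : Finset (Fin (2 * g + 1)))
    (h : Apart l B) (hp : p ∈ l) : w (dl x l B) ≤ b := by
  induction l generalizing B with
  | nil => exact absurd hp (List.not_mem_nil)
  | cons q l ih =>
    rcases List.mem_cons.1 hp with h1 | h1
    · rw [← h1] at h ⊢
      exact dl_le_aux hb l B h
    · obtain ⟨h2, h3⟩ := apart_cons h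
      exact w.map_sub_le (ih _ h2 h1) (ih _ h3 h1)

end val

theorem dl_abs {x : Finset (Fin (2 * g + 1)) → K} {w : K → ℝ}
    (hw : ∀ y z : K, w (y - z) ≤ w y + w z) {M : ℝ} (hb : ∀ S ∈ Sp g, w (x S) ≤ M)
    (l : List (Fin (2 * g + 1) × Fin (2 * g + 1))) (B : Finset (Fin (2 * g + 1)))
    (h : Apart l B) : w (dl x l B) ≤ 2 ^ l.length * M := by
  induction l generalizing B with
  | nil =>
    have h3 := h.2.2
    rw [List.length_nil] at h3
    rw [List.length_nil, pow_zero, one_mul]
    exact hb _ (mem_Sp.2 h3)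
  | cons p l ih =>
    obtain ⟨h1, h2⟩ := apart_cons h
    simp only [dl]
    refine (hw _ _).trans ?_
    have e1 := ih _ h1
    have e2 := ih _ h2
    rw [List.length_cons, pow_succ]
    linarith

theorem apart_nodup {l : List (Fin (2 * g + 1) × Fin (2 * g + 1))}
    {B : Finset (Fin (2 * g + 1))} (h : Apart l B) : l.Nodup := by
  have h1 := h.1
  have h2 := (List.nodup_append.1 h1).1
  exact List.Nodup.of_map _ h2

theorem apart_sub {l : List (Fin (2 * g + 1) × Fin (2 * g + 1))}
    {B : Finset (Fin (2 * g + 1))} (h : Apart l B) : l.toFinset ⊆ prs (2 * g + 1) := by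
  intro p hp
  rw [List.mem_toFinset] at hp
  exact mem_prs.2 (h.2.1 p hp).1

theorem origin_of {x : Finset (Fin (2 * g + 1)) → K}
    (h : ∀ i j : Fin (2 * g + 1), ∀ B : Finset (Fin (2 * g + 1)), i < j → i ∉ B → j ∉ B →
      B.card = g → x (insert i B) = x (insert j B)) : Origin x := by
  have h' (i j : Fin (2 * g + 1)) (B : Finset (Fin (2 * g + 1))) (hi : i ∉ B) (hj : j ∉ B)
      (hB : B.card = g) : x (insert i B) = x (insert j B) := by
    rcases lt_trichotomy i j with hij | rfl | hij
    · exact h i j B hij hi hj hB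
    · rfl
    · exact (h j i B hij hj hi hB).symm
  have key (m : ℕ) : ∀ S ∈ Sp g, ∀ S' ∈ Sp g, (S \ S').card ≤ m → x S = x S' := by
    induction m with
    | zero =>
      intro S hS S' hS' hm
      rw [Nat.le_zero, card_eq_zero, sdiff_eq_empty_iff_subset] at hm
      rw [eq_of_subset_of_card_le hm (by rw [mem_Sp.1 hS, mem_Sp.1 hS'])]
    | succ m ih =>
      intro S hS S' hS' hm
      by_cases he : S = S'
      · rw [he]
      have h1 : (S \ S').Nonempty := by
        rw [sdiff_nonempty]
        intro hs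
        exact he (eq_of_subset_of_card_le hs (by rw [mem_Sp.1 hS, mem_Sp.1 hS']))
      have h2 : (S' \ S).Nonempty := by
        rw [sdiff_nonempty]
        intro hs
        exact he (eq_of_subset_of_card_le hs (by rw [mem_Sp.1 hS, mem_Sp.1 hS'])).symm
      obtain ⟨i, hi⟩ := h1
      obtain ⟨j, hj⟩ := h2
      rw [mem_sdiff] at hi hj
      have hB : (S.erase i).card = g := by
        rw [card_erase_of_mem hi.1, mem_Sp.1 hS]
        rfl
      have hiB : i ∉ S.erase i := notMem_erase _ _
      have hjB : j ∉ S.erase i := fun h => hj.2 (mem_erase.1 h).2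
      have e1 := h' i j (S.erase i) hiB hjB hB
      rw [insert_erase hi.1] at e1
      rw [e1]
      refine ih _ (insert_mem hB hjB) S' hS' ?_
      have e2 : insert j (S.erase i) \ S' ⊆ (S \ S').erase i := by
        intro k hk
        rw [mem_sdiff, mem_insert, mem_erase] at hk
        rw [mem_erase, mem_sdiff]
        rcases hk.1 with h3 | h3
        · exact absurd (h3 ▸ hj.1) hk.2
        · exact ⟨h3.1, h3.2, hk.2⟩
      have e3 := card_le_card e2
      rw [card_erase_of_mem (mem_sdiff.2 hi)] at e3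
      omega
  intro S hS S' hS'
  exact key _ S hS S' hS' le_rfl

theorem exists_dl {x : Finset (Fin (2 * g + 1)) → K} (h : ¬ Origin x) :
    ∃ l B, Apart l B ∧ dl x l B ≠ 0 ∧ l.length = 1 := by
  by_contra hcon
  push Not at hcon
  refine h (origin_of fun i j B hij hi hj hB => ?_)
  have h1 : Apart [(i, j)] B := by
    refine ⟨?_, fun p hp => ?_, ?_⟩
    · simpa using hij.ne
    · rw [List.mem_singleton] at hp
      rw [hp]
      exact ⟨hij, hi, hj⟩
    · rw [List.length_singleton, hB]
  by_contra hne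
  refine hcon _ _ h1 ?_ rfl
  simp only [dl]
  exact sub_ne_zero.2 hne

end Pool.Agent.H433.HG
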