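import Pool.Agent.H433.AC.Def
import Mathlib.NumberTheory.Height.NumberField
import Mathlib.NumberTheory.NumberField.Discriminant.Defs

/-!
Definitions: the Jacobians of the hyperelliptic curves `d y ^ 2 = (x - a_0) ... (x - a_{2 g})` of
genus `g`, and the duplication.
-/

set_option autoImplicit false

open NumberField IsDedekindDomain Finset Filter Topology

namespace Pool.Agent.H433.HG

open Pool.Agent.H433.AC

variable {g : ℕ}

/-- The sets with `g + 1` elements of the `2 g + 1` finite branch points. They correspond to the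
partitions of the `2 g + 2` branch points in two sets with `g + 1` elements, and to the even theta
characteristics `S` with `θ_S(0) ≠ 0`. -/
def Sp (g : ℕ) : Finset (Finset (Fin (2 * g + 1))) := powersetCard (g + 1) univ

section field

variable {K : Type} [Field K]

/-- The product of the differences `a_i - a_j` with `i ∈ S` and `j ∉ S`. By the formula of Thomae,
`θ_S(0) ^ 4` is `1 / rs a S` up to a common factor and up to signs. -/
def rs (a : Fin (2 * g + 1) → K) (S : Finset (Fin (2 * g + 1))) : K :=
  ∏ i ∈ S, ∏ j ∈ Sᶜ, (a i - a j)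

/-- the linear relations between the numbers `x S = θ_S(z) ^ 2 / θ_S(0) ^ 2` -/
def Linear (a : Fin (2 * g + 1) → K) (x : Finset (Fin (2 * g + 1)) → K) : Prop :=
  ∀ U ∈ Sp g, x U =
    ∑ i ∈ U, (∏ j ∈ Uᶜ, (a i - a j)) / (∏ j ∈ U.erase i, (a i - a j)) * x (insert i Uᶜ)

/-- The duplication: `x S = θ_S(z) ^ 2 / θ_S(0) ^ 2`, `q S = θ_S(2 z) / θ_S(0)` and
`y S = θ_S(2 z) ^ 2 / θ_S(0) ^ 2`, up to common factors. -/
def Double (a : Fin (2 * g + 1) → K) (x y : Finset (Fin (2 * g + 1)) → K) : Prop :=
  ∃ (t : K) (q : Finset (Fin (2 * g + 1)) → K), t ≠ 0 ∧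
    (∀ S ∈ Sp g, 2 ^ g * (x S ^ 2 / rs a S) = ∑ R ∈ Sp g, (-1) ^ (S \ R).card * (q R / rs a R)) ∧
    ∀ S ∈ Sp g, y S = t * q S ^ 2

/-- `X n` are coordinates of the image of `2 ^ n P` on the Kummer variety. -/
def Orbit (a : Fin (2 * g + 1) → K) (X : ℕ → Finset (Fin (2 * g + 1)) → K) : Prop :=
  ∀ n, (∃ S ∈ Sp g, X n S ≠ 0) ∧ Linear a (X n) ∧ Double a (X n) (X (n + 1))

/-- all the coordinates are equal: the point is the origin -/
def Origin (x : Finset (Fin (2 * g + 1)) → K) : Prop := ∀ S ∈ Sp g, ∀ S' ∈ Sp g, x S = x S'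

/-- the iterated differences of the coordinates -/
def dl (x : Finset (Fin (2 * g + 1)) → K) :
    List (Fin (2 * g + 1) × Fin (2 * g + 1)) → Finset (Fin (2 * g + 1)) → K
  | [], B => x B
  | p :: l, B => dl x l (insert p.1 B) - dl x l (insert p.2 B)

end field

/-- The elements of the pairs and of the set `B` are different, and they are enough. -/
def Apart (l : List (Fin (2 * g + 1) × Fin (2 * g + 1))) (B : Finset (Fin (2 * g + 1))) : Prop :=
  (l.map Prod.fst ++ l.map Prod.snd).Nodup ∧ (∀ p ∈ l, p.1 < p.2 ∧ p.1 ∉ B ∧ p.2 ∉ B) ∧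
    B.card + l.length = g + 1

section number

variable {K : Type} [Field K] [NumberField K]

/-- the height of a vector with the coordinates `x S`, `S ∈ Sp g`, relative to `K` -/
noncomputable def ht (x : Finset (Fin (2 * g + 1)) → K) : ℝ :=
  Height.logHeight fun S : Sp g => x S

/-- the canonical height, relative to `K` -/
noncomputable def hhat (X : ℕ → Finset (Fin (2 * g + 1)) → K) : ℝ :=
  limUnder atTop fun n : ℕ => ht (X n) / 4 ^ n

/-- the height of the point of the moduli space -/
noncomputable def hm (a : Fin (2 * g + 1) → 𝓞 K) : ℝ := ht fun S => (rs (fun i => (a i : K)) S)⁻¹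

/-- the point with the coordinates `x` is congruent to the origin modulo `v` -/
def Zero (x : Finset (Fin (2 * g + 1)) → K) (v : HeightOneSpectrum (𝓞 K)) : Prop :=
  ∀ S ∈ Sp g, ∀ S' ∈ Sp g, v.valuation K (x S - x S') < v.valuation K (x S)

/-- the logarithm of the norm of the relative discriminant of the extension `L` of `K` -/
noncomputable def ld (K L : Type) [Field K] [NumberField K] [Field L] [NumberField L]
    [Algebra K L] : ℝ :=
  Real.log |(discr L : ℝ)| - Module.finrank K L * Real.log |(discr K : ℝ)|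

/-- The inequality of Lang and Silverman, with explicit constants, for the Jacobian of the curve
with the finite branch points `a_i`, for all its quadratic twists over all the finite extensions `L`
of `K`, and for all the points `P` of these twists with `2 P ≠ 0`. -/
def LangSilverman (ε : ℝ) (H : ℕ) (a : Fin (2 * g + 1) → 𝓞 K) : Prop :=
  Function.Injective a ∧
  |hm a - g ^ 2 * (Module.finrank ℚ K * Real.log H)| ≤
    ε * (Module.finrank ℚ K * Real.log H) ∧
  ∀ (L : Type) [Field L] [NumberField L] [Algebra K L],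
    ∀ X : ℕ → Finset (Fin (2 * g + 1)) → L, Orbit (fun i => algebraMap K L (a i)) X →
      Tendsto (fun n : ℕ => ht (X n) / 4 ^ n) atTop (𝓝 (hhat X)) ∧
      (Origin (X 1) ∨ ∀ S : Finset (HeightOneSpectrum (𝓞 L)), (∀ v ∈ S, Zero (X 1) v) →
        Module.finrank K L * ((1 / (4 * g ^ 2) - ε) * hm a) +
          1 / 4 * ∑ v ∈ S, Real.log (nv v) - 1 / 4 * ld K L ≤ hhat X ∧
        ∀ l B, Apart l B → dl (X 1) l B ≠ 0 →
          Module.finrank K L * ((l.length / (4 * g ^ 2) - ε) * hm a) +
            1 / 4 * ∑ v ∈ S, Real.log (nv v) - 1 / 4 * ld K L ≤ hhat X)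

end number

end Pool.Agent.H433.HG
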