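import Pool.Agent.H433.HG.Glob
import Mathlib.RingTheory.Ideal.Norm.RelNorm
import Mathlib.NumberTheory.NumberField.Discriminant.Different

/-!
Extension of the base field.
-/

set_option autoImplicit false
set_option linter.unusedSectionVars false

open NumberField IsDedekindDomain Finset

namespace Pool.Agent.H433.HG

open Pool.Agent.H433.AC
open Pool.Agent.H433.GT (mi le_mi span_ne le_mi_span log_absNorm log_Nm)

variable {g : ℕ} {K L : Type} [Field K] [NumberField K] [Field L] [NumberField L] [Algebra K L]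

variable (L) in
/-- the image of a vector in the extension -/
def up (a : Fin (2 * g + 1) → 𝓞 K) : Fin (2 * g + 1) → 𝓞 L :=
  fun i => algebraMap (𝓞 K) (𝓞 L) (a i)

theorem up_sub (a : Fin (2 * g + 1) → 𝓞 K) (i j : Fin (2 * g + 1)) :
    up L a i - up L a j = algebraMap (𝓞 K) (𝓞 L) (a i - a j) := by
  simp [up]

theorem alg_inj : Function.Injective (algebraMap (𝓞 K) (𝓞 L)) :=
  FaithfulSMul.algebraMap_injective (𝓞 K) (𝓞 L)

theorem alg_co (x : 𝓞 K) : ((algebraMap (𝓞 K) (𝓞 L) x : 𝓞 L) : L) = algebraMap K L (x : K) := by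
  show algebraMap (𝓞 L) L (algebraMap (𝓞 K) (𝓞 L) x) = algebraMap K L (algebraMap (𝓞 K) K x)
  rw [← IsScalarTower.algebraMap_apply (𝓞 K) (𝓞 L) L, IsScalarTower.algebraMap_apply (𝓞 K) K L]

theorem up_dif {a : Fin (2 * g + 1) → 𝓞 K} (h : Dif a) : Dif (up L a) := fun q hq => by
  rw [up_sub]
  exact (map_ne_zero_iff _ alg_inj).2 (h q hq)

variable (L) in
theorem Nm_map (x : 𝓞 K) : Nm (algebraMap (𝓞 K) (𝓞 L) x) = Nm x ^ Module.finrank K L := by
  unfold Nm
  rw [← Set.image_singleton, ← Ideal.map_span, Ideal.absNorm_algebraMap,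
    ← IsFractionRing.finrank_eq (𝓞 K) K (𝓞 L) L]

theorem comap_eq {v : HeightOneSpectrum (𝓞 K)} {w : HeightOneSpectrum (𝓞 L)}
    (hw : v.asIdeal.map (algebraMap (𝓞 K) (𝓞 L)) ≤ w.asIdeal) :
    w.asIdeal.comap (algebraMap (𝓞 K) (𝓞 L)) = v.asIdeal := by
  have h1 := v.isMaximal
  refine (h1.eq_of_le ?_ (Ideal.map_le_iff_le_comap.1 hw)).symm
  intro h2
  have h3 : (1 : 𝓞 K) ∈ w.asIdeal.comap (algebraMap (𝓞 K) (𝓞 L)) := by
    rw [h2]
    trivial
  rw [Ideal.mem_comap, map_one] at h3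
  exact w.isPrime.ne_top ((Ideal.eq_top_iff_one _).2 h3)

theorem span_sup {v : HeightOneSpectrum (𝓞 K)} {x : 𝓞 K} (h1 : x ∈ v.asIdeal)
    (h2 : x ∉ v.asIdeal ^ 2) : Ideal.span {x} ⊔ v.asIdeal ^ 2 = v.asIdeal := by
  set I := Ideal.span {x} ⊔ v.asIdeal ^ 2 with hI
  have h3 : I ∣ v.asIdeal ^ 2 := Ideal.dvd_iff_le.2 le_sup_right
  obtain ⟨i, hi, hass⟩ := (dvd_prime_pow v.prime _).1 h3
  rw [associated_iff_eq] at hass
  have hIv : I ≤ v.asIdeal := by
    rw [hI, sup_le_iff, Ideal.span_singleton_le_iff_mem]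
    exact ⟨h1, Ideal.pow_le_self two_ne_zero⟩
  have hx : x ∈ I := by
    rw [hI]
    exact Ideal.mem_sup_left (Ideal.mem_span_singleton_self x)
  interval_cases i
  · rw [pow_zero, Ideal.one_eq_top] at hass
    rw [hass, top_le_iff] at hIv
    exact absurd hIv v.isPrime.ne_top
  · rw [hass, pow_one]
  · rw [hass] at hx
    exact absurd hx h2

variable (L) in
/-- the extension of a prime ideal -/
def J (v : HeightOneSpectrum (𝓞 K)) : Ideal (𝓞 L) := v.asIdeal.map (algebraMap (𝓞 K) (𝓞 L))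

theorem J_ne (v : HeightOneSpectrum (𝓞 K)) : J L v ≠ ⊥ := by
  unfold J
  rw [Ne, Ideal.map_eq_bot_iff_of_injective alg_inj]
  exact v.ne_bot

theorem J_le {v : HeightOneSpectrum (𝓞 K)} {w : HeightOneSpectrum (𝓞 L)} {t : ℕ}
    (ht : t ≤ mi w (J L v)) : J L v ≤ w.asIdeal ^ t :=
  Ideal.dvd_iff_le.1 ((le_mi (J_ne v) t).2 ht)

theorem single_up {a : Fin (2 * g + 1) → 𝓞 K} {p : Fin (2 * g + 1) × Fin (2 * g + 1)}
    {v : HeightOneSpectrum (𝓞 K)} (hs : Single a p v) {w : HeightOneSpectrum (𝓞 L)}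
    (hw : J L v ≤ w.asIdeal) : Single (up L a) p w := by
  obtain ⟨s1, s3⟩ := hs
  refine ⟨?_, fun q hq hqw => ?_⟩
  · rw [up_sub]
    exact hw (Ideal.mem_map_of_mem _ s1)
  · rw [up_sub, ← Ideal.mem_comap, comap_eq hw] at hqw
    exact s3 q hq hqw

/-- the multiplicity of a simple difference in the extension -/
theorem mp_up {v : HeightOneSpectrum (𝓞 K)} {x : 𝓞 K} (h1 : x ∈ v.asIdeal)
    (h2 : x ∉ v.asIdeal ^ 2) {w : HeightOneSpectrum (𝓞 L)} (hw : 1 ≤ mi w (J L v)) :
    mp w (algebraMap (𝓞 K) (𝓞 L) x) = mi w (J L v) := by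
  have hx : x ≠ 0 := by
    rintro rfl
    exact h2 (Ideal.zero_mem _)
  have hx' : algebraMap (𝓞 K) (𝓞 L) x ≠ 0 := (map_ne_zero_iff _ alg_inj).2 hx
  refine le_antisymm ?_ ?_
  · by_contra hcon
    rw [not_le] at hcon
    have h3 : algebraMap (𝓞 K) (𝓞 L) x ∈ w.asIdeal ^ (mi w (J L v) + 1) := by
      rw [le_mp hx']
      exact hcon
    have h4 : J L v ≤ w.asIdeal ^ (mi w (J L v) + 1) := by
      have e1 : J L v = Ideal.span {algebraMap (𝓞 K) (𝓞 L) x} ⊔ (J L v) ^ 2 := by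
        unfold J
        rw [← Ideal.map_pow, ← Set.image_singleton, ← Ideal.map_span, ← Ideal.map_sup,
          span_sup h1 h2]
      refine e1.le.trans ?_
      rw [sup_le_iff, Ideal.span_singleton_le_iff_mem]
      refine ⟨h3, ?_⟩
      have e2 : J L v ≤ w.asIdeal ^ (mi w (J L v)) := J_le le_rfl
      have e3 := Ideal.pow_right_mono e2 2
      rw [← pow_mul] at e3
      exact e3.trans (Ideal.pow_le_pow_right (by omega))
    have h5 := (le_mi (v := w) (J_ne v) _).1 (Ideal.dvd_iff_le.2 h4)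
    omega
  · rw [← le_mp hx']
    exact J_le le_rfl (Ideal.mem_map_of_mem _ h1)

theorem simple_up {a : Fin (2 * g + 1) → 𝓞 K} {p : Fin (2 * g + 1) × Fin (2 * g + 1)}
    (hp : p ∈ prs (2 * g + 1)) (h : Dif a)
    {v : HeightOneSpectrum (𝓞 K)} (hs : Simple 1 a p v) {w : HeightOneSpectrum (𝓞 L)}
    (hw : mi w (J L v) = 1) : Simple 1 (up L a) p w := by
  have h1 := single_up (single_of_simple hs) (w := w) (by
    have := J_le (v := v) (w := w) hw.symm.le
    rwa [pow_one] at this)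
  refine ⟨?_, h1.1, ?_, h1.2⟩
  · rw [Nat.cast_one]
    exact fun h => w.isPrime.ne_top ((Ideal.eq_top_iff_one _).2 h)
  · rw [up_sub, le_mp ((map_ne_zero_iff _ alg_inj).2 (h p hp)),
      mp_up hs.2.1 hs.2.2.1 hw.symm.le, hw]
    norm_num

theorem mi_different (v : HeightOneSpectrum (𝓞 K)) (w : HeightOneSpectrum (𝓞 L)) :
    mi w (J L v) - 1 ≤ mi w (differentIdeal (𝓞 K) (𝓞 L)) := by
  have hv := v.isMaximal
  have h1 := (le_mi (v := w) (J_ne (L := L) v) _).2 le_rfl
  have h2 := pow_sub_one_dvd_differentIdeal (𝓞 K) w.asIdeal _ v.ne_bot h1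
  exact (le_mi (v := w) differentIdeal_ne_bot _).1 h2

/-- the logarithm of the norm of the different -/
theorem log_different : Real.log (Ideal.absNorm (differentIdeal (𝓞 K) (𝓞 L))) = ld K L := by
  have h1 := NumberField.natAbs_discr_eq_absNorm_differentIdeal_mul_natAbs_discr_pow K (𝓞 K) L (𝓞 L)
  have hK : (discr K) ≠ 0 := discr_ne_zero K
  have hL : (discr L) ≠ 0 := discr_ne_zero L
  have h2 : ((discr L).natAbs : ℝ) = Ideal.absNorm (differentIdeal (𝓞 K) (𝓞 L)) *
      ((discr K).natAbs : ℝ) ^ Module.finrank K L := by exact_mod_cast h1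
  have e1 : ((discr L).natAbs : ℝ) = |(discr L : ℝ)| := by
    rw [Nat.cast_natAbs]
    push_cast
    rfl
  have e2 : ((discr K).natAbs : ℝ) = |(discr K : ℝ)| := by
    rw [Nat.cast_natAbs]
    push_cast
    rfl
  rw [e1, e2] at h2
  have hK' : (discr K : ℝ) ≠ 0 := by exact_mod_cast hK
  have hN : (Ideal.absNorm (differentIdeal (𝓞 K) (𝓞 L)) : ℝ) ≠ 0 := by
    rw [Nat.cast_ne_zero, Ne, Ideal.absNorm_eq_zero_iff]
    exact differentIdeal_ne_bot
  unfold ld
  rw [h2, Real.log_mul hN (pow_ne_zero _ (abs_ne_zero.2 hK')), Real.log_pow]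
  ring

/-- the simple places -/
noncomputable def Vs {a : Fin (2 * g + 1) → 𝓞 K} (h : Dif a) :
    Finset (HeightOneSpectrum (𝓞 K)) := by
  classical
  exact (Vf h).filter (Smp a)

variable (L) in
/-- the multiplicity of a prime in the product of the simple places -/
noncomputable def sw {a : Fin (2 * g + 1) → 𝓞 K} (h : Dif a) (w : HeightOneSpectrum (𝓞 L)) : ℕ :=
  ∑ v ∈ Vs h, mi w (J L v)

theorem mem_Vs {a : Fin (2 * g + 1) → 𝓞 K} (h : Dif a) {v : HeightOneSpectrum (𝓞 K)} :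
    v ∈ Vs h ↔ Smp a v := by
  classical
  unfold Vs
  rw [mem_filter]
  refine ⟨fun h => h.2, fun h' => ⟨?_, h'⟩⟩
  obtain ⟨p, hp, hs⟩ := h'
  exact mem_Vf h hp hs.2.1

theorem sw_cases {a : Fin (2 * g + 1) → 𝓞 K} (h : Dif a) (w : HeightOneSpectrum (𝓞 L)) :
    sw L h w = 0 ∨ ∃ v, Smp a v ∧ 1 ≤ mi w (J L v) ∧ sw L h w = mi w (J L v) := by
  classical
  by_cases hex : ∃ v ∈ Vs h, mi w (J L v) ≠ 0
  · obtain ⟨v, hv, hm⟩ := hex
    refine Or.inr ⟨v, (mem_Vs h).1 hv, by omega, ?_⟩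
    unfold sw
    refine sum_eq_single_of_mem v hv fun v' hv' hne => ?_
    by_contra hne0
    have h1 : J L v ≤ w.asIdeal := by
      have := J_le (v := v) (w := w) (t := 1) (by omega)
      rwa [pow_one] at this
    have h2 : J L v' ≤ w.asIdeal := by
      have := J_le (v := v') (w := w) (t := 1) (by omega)
      rwa [pow_one] at this
    have h4 := comap_eq h2
    rw [comap_eq h1] at h4
    exact hne (HeightOneSpectrum.ext h4.symm)
  · push Not at hex
    exact Or.inl (sum_eq_zero hex)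

theorem mu_up {a : Fin (2 * g + 1) → 𝓞 K} (h : Dif a) {v : HeightOneSpectrum (𝓞 K)}
    (hv : Smp a v) {w : HeightOneSpectrum (𝓞 L)} (hw : 1 ≤ mi w (J L v)) :
    mu (up L a) w = mi w (J L v) := by
  obtain ⟨p, hp, hs⟩ := hv
  have h1 : J L v ≤ w.asIdeal := by
    have := J_le (v := v) (w := w) (t := 1) hw
    rwa [pow_one] at this
  have h2 := single_up (L := L) (single_of_simple hs) h1
  unfold mu
  rw [sum_congr rfl fun q hq => mp_single (up_dif h) h2 hq, sum_ite_eq', if_pos hp, up_sub,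
    mp_up hs.2.1 hs.2.2.1 hw]

theorem sw_le {a : Fin (2 * g + 1) → 𝓞 K} (h : Dif a) (w : HeightOneSpectrum (𝓞 L)) :
    sw L h w ≤ mu (up L a) w := by
  rcases sw_cases h w with h1 | ⟨v, hv, h1, h2⟩
  · rw [h1]
    exact Nat.zero_le _
  · rw [h2, mu_up h hv h1]

/-- the sum over the places which are not over simple places -/
theorem sum_sw {a : Fin (2 * g + 1) → 𝓞 K} (h : Dif a) :
    ∑ w ∈ Vf (up_dif (L := L) h), ((mu (up L a) w : ℝ) - sw L h w) * Real.log (nv w) =
      Module.finrank K L * ex h := by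
  classical
  set hL := up_dif (L := L) h with hhL
  have e1 (v : HeightOneSpectrum (𝓞 K)) (hv : v ∈ Vs h) :
      Module.finrank K L * Real.log (nv v) =
        ∑ w ∈ Vf hL, (mi w (J L v) : ℝ) * Real.log (nv w) := by
    obtain ⟨p, hp, hs⟩ := (mem_Vs h).1 hv
    rw [← log_absNorm (J_ne v) (Vf hL) fun w hw => ?_]
    · unfold J
      rw [Ideal.absNorm_algebraMap, ← IsFractionRing.finrank_eq (𝓞 K) K (𝓞 L) L]
      push_cast
      rw [Real.log_pow]
      rfl
    · refine mem_Vf hL hp ?_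
      rw [up_sub]
      exact Ideal.dvd_iff_le.1 hw (Ideal.mem_map_of_mem _ hs.2.1)
  have e2 : ∑ w ∈ Vf hL, (sw L h w : ℝ) * Real.log (nv w) =
      Module.finrank K L * ∑ v ∈ Vs h, Real.log (nv v) := by
    rw [mul_sum, sum_congr rfl e1, sum_comm]
    refine sum_congr rfl fun w _ => ?_
    unfold sw
    push_cast
    rw [sum_mul]
  have e3 : ∑ w ∈ Vf hL, (mu (up L a) w : ℝ) * Real.log (nv w) =
      Module.finrank K L * ∑ q ∈ prs (2 * g + 1), Real.log (Nm (a q.1 - a q.2)) := by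
    rw [mul_sum]
    have e4 (q : Fin (2 * g + 1) × Fin (2 * g + 1)) (hq : q ∈ prs (2 * g + 1)) :
        Module.finrank K L * Real.log (Nm (a q.1 - a q.2)) =
          ∑ w ∈ Vf hL, (mp w (up L a q.1 - up L a q.2) : ℝ) * Real.log (nv w) := by
      rw [← log_Nm (hL q hq) (Vf hL) fun w hw => mem_Vf hL hq hw, up_sub, Nm_map]
      push_cast
      rw [Real.log_pow]
    rw [sum_congr rfl e4, sum_comm]
    refine sum_congr rfl fun w _ => ?_
    unfold mu
    push_cast
    rw [sum_mul]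
  have e5 : ∑ p ∈ prs (2 * g + 1), Lp 1 h p = ∑ v ∈ Vs h, Real.log (nv v) := by
    unfold Lp
    rw [sum_comm]
    unfold Vs
    rw [sum_filter]
    refine sum_congr rfl fun v _ => ?_
    split_ifs with hv
    · obtain ⟨p, hp, hs⟩ := hv
      rw [sum_eq_single_of_mem p hp fun q hq hne => ?_, if_pos hs]
      rw [if_neg]
      intro hs'
      exact hne (hs.2.2.2 q hq hs'.2.1)
    · refine sum_eq_zero fun p hp => ?_
      rw [if_neg]
      intro hs
      exact hv ⟨p, hp, hs⟩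
  simp only [sub_mul, sum_sub_distrib]
  rw [e2, e3]
  unfold ex
  rw [sum_sub_distrib, e5]
  ring

theorem exs_sng {a : Fin (2 * g + 1) → 𝓞 K} (h : Dif a) :
    exs (up_dif (L := L) h) (Sng (up L a)) ≤ Module.finrank K L * ex h := by
  classical
  rw [← sum_sw]
  unfold exs
  refine sum_le_sum fun w _ => mul_le_mul_of_nonneg_right ?_ (log_nv_pos w).le
  have h1 : (sw L h w : ℝ) ≤ mu (up L a) w := by exact_mod_cast sw_le h w
  split_ifs with hs
  · linarith
  · rcases sw_cases h w with h2 | ⟨v, hv, h2, h3⟩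
    · rw [h2, Nat.cast_zero, sub_zero]
    · exfalso
      apply hs
      obtain ⟨p, hp, hs'⟩ := hv
      refine ⟨p, hp, single_up (single_of_simple hs') ?_⟩
      have := J_le (v := v) (w := w) (t := 1) h2
      rwa [pow_one] at this

theorem exs_smp {a : Fin (2 * g + 1) → 𝓞 K} (h : Dif a) :
    exs (up_dif (L := L) h) (Smp (up L a)) ≤ Module.finrank K L * ex h + 2 * ld K L := by
  classical
  set hL := up_dif (L := L) h with hhL
  have hD : differentIdeal (𝓞 K) (𝓞 L) ≠ ⊥ := differentIdeal_ne_bot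
  have h0 : ∑ w ∈ Vf hL, (mi w (differentIdeal (𝓞 K) (𝓞 L)) : ℝ) * Real.log (nv w) ≤
      ld K L := by
    rw [← log_different, log_absNorm hD (Vf hL ∪ (Ideal.finite_factors hD).toFinset) fun w hw => by
      rw [mem_union, Set.Finite.mem_toFinset]
      exact Or.inr hw]
    refine sum_le_sum_of_subset_of_nonneg subset_union_left fun w _ _ => ?_
    exact mul_nonneg (Nat.cast_nonneg _) (log_nv_pos w).le
  have h1 : exs hL (Smp (up L a)) ≤
      ∑ w ∈ Vf hL, ((mu (up L a) w : ℝ) - sw L h w) * Real.log (nv w) +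
        2 * ∑ w ∈ Vf hL, (mi w (differentIdeal (𝓞 K) (𝓞 L)) : ℝ) * Real.log (nv w) := by
    unfold exs
    rw [mul_sum, ← sum_add_distrib]
    refine sum_le_sum fun w _ => ?_
    rw [← mul_assoc, ← add_mul]
    refine mul_le_mul_of_nonneg_right ?_ (log_nv_pos w).le
    have h1 : (sw L h w : ℝ) ≤ mu (up L a) w := by exact_mod_cast sw_le h w
    have h4 : (0 : ℝ) ≤ mi w (differentIdeal (𝓞 K) (𝓞 L)) := Nat.cast_nonneg _
    split_ifs with hs
    · linarith
    · rcases sw_cases h w with h2 | ⟨v, hv, h2, h3⟩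
      · rw [h2, Nat.cast_zero, sub_zero]
        linarith
      · have h5 : 2 ≤ mi w (J L v) := by
          by_contra hcon
          apply hs
          obtain ⟨p, hp, hs'⟩ := hv
          exact ⟨p, hp, simple_up hp h hs' (by omega)⟩
        have h6 := mi_different (L := L) v w
        have h7 := mu_up h hv h2
        have h8 : mu (up L a) w ≤ 2 * mi w (differentIdeal (𝓞 K) (𝓞 L)) := by omega
        have h9 : (mu (up L a) w : ℝ) ≤ 2 * mi w (differentIdeal (𝓞 K) (𝓞 L)) := by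
          exact_mod_cast h8
        linarith
  rw [sum_sw] at h1
  linarith

theorem place_up (a : Fin (2 * g + 1) → 𝓞 K) (w : InfinitePlace L)
    (q : Fin (2 * g + 1) × Fin (2 * g + 1)) :
    w ((up L a q.1 - up L a q.2 : 𝓞 L) : L) =
      (w.comap (algebraMap K L)) ((a q.1 - a q.2 : 𝓞 K) : K) := by
  rw [up_sub, InfinitePlace.comap_apply, alg_co]

end Pool.Agent.H433.HG
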