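import Pool.Agent.H433.HG.Inv
import Pool.Agent.H433.HG.Comb
import Pool.Agent.H433.GT.Ht

/-!
The height of the double of a point.
-/

set_option autoImplicit false

open NumberField IsDedekindDomain Finset Filter Topology Height

namespace Pool.Agent.H433.HG

open Pool.Agent.H433.GT (lin_ht inj_ht seq_lim)

variable {g : ℕ} {K : Type} [Field K]

/-- the fourth powers of the theta functions -/
def al (a : Fin (2 * g + 1) → K) (x : Finset (Fin (2 * g + 1)) → K)
    (S : Finset (Fin (2 * g + 1))) : K := (rs a S)⁻¹ * x S ^ 2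

/-- the matrix of the signs -/
def sg (S R : Finset (Fin (2 * g + 1))) : ℤ := (-1) ^ (S \ R).card

theorem sg_sq (S R : Finset (Fin (2 * g + 1))) : sg S R ^ 2 = 1 := by
  unfold sg
  rw [← pow_mul, mul_comm, pow_mul, neg_one_sq, one_pow]

theorem sg_inj [CharZero K] {z : Finset (Fin (2 * g + 1)) → K}
    (h : ∀ S ∈ Sp g, ∑ R ∈ Sp g, (sg S R : K) * z R = 0) : ∀ R ∈ Sp g, z R = 0 := by
  refine sign_inj g univ (by rw [card_univ, Fintype.card_fin]) z fun S hS => ?_
  have h1 := h S hS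
  have h2 : ∑ R ∈ powersetCard (g + 1) univ, (-1 : K) ^ (S ∩ R).card * z R =
      (-1) ^ (g + 1) * ∑ R ∈ Sp g, (sg S R : K) * z R := by
    rw [mul_sum]
    refine sum_congr rfl fun R _ => ?_
    unfold sg
    have h3 : (S \ R).card + (S ∩ R).card = g + 1 := by
      rw [card_sdiff_add_card_inter]
      exact mem_Sp.1 hS
    have h4 : (-1 : K) ^ (g + 1) * (-1) ^ (S \ R).card = (-1) ^ (S ∩ R).card := by
      rw [← h3, pow_add, mul_right_comm, ← pow_add, ← two_mul, pow_mul, neg_one_sq, one_pow,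
        one_mul]
    push_cast
    rw [← mul_assoc, h4]
  rw [h2, h1, mul_zero]

variable [NumberField K]

theorem ht_nonneg (x : Finset (Fin (2 * g + 1)) → K) : 0 ≤ ht x := logHeight_nonneg _

/-- the constant `log |Sp g|` -/
noncomputable def cg (g : ℕ) : ℝ := Real.log (Nat.card (Sp g))

theorem cg_nonneg (g : ℕ) : 0 ≤ cg g := Real.log_natCast_nonneg _

theorem sign_ht {ι : Type} [Finite ι] (M : ι → K) (h : ∀ i, M i ^ 2 = 1) : logHeight M = 0 := by
  have h1 := logHeight_pow M 2
  have h2 : M ^ 2 = 1 := funext h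
  rw [h2, logHeight_one] at h1
  push_cast at h1
  linarith

theorem al_ht_eq (a : Fin (2 * g + 1) → K) (x : Finset (Fin (2 * g + 1)) → K) :
    ht (al a x) = logHeight ((fun S : Sp g => (rs a S)⁻¹) * (fun S : Sp g => x S) ^ 2) := rfl

theorem al_up (a : Fin (2 * g + 1) → K) (x : Finset (Fin (2 * g + 1)) → K) :
    ht (al a x) ≤ 2 * ht x + ht (fun S => (rs a S)⁻¹) := by
  have h2 := logHeight_mul_le (fun S : Sp g => (rs a S)⁻¹) ((fun S : Sp g => x S) ^ 2)
  have h3 := logHeight_pow (fun S : Sp g => x S) 2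
  rw [al_ht_eq]
  unfold ht
  push_cast at h3
  linarith

theorem al_low {a : Fin (2 * g + 1) → K} (ha : Function.Injective a)
    (x : Finset (Fin (2 * g + 1)) → K) :
    2 * ht x ≤ ht (al a x) + ht (fun S => rs a S) := by
  have h1 : (fun S : Sp g => x S) ^ 2 = (fun S : Sp g => rs a S) * (fun S : Sp g => al a x S) := by
    funext S
    have := rs_ne ha (S : Finset (Fin (2 * g + 1)))
    show x S ^ 2 = rs a S * ((rs a S)⁻¹ * x S ^ 2)
    field_simp
  have h2 := logHeight_mul_le (fun S : Sp g => rs a S) (fun S : Sp g => al a x S)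
  have h3 := logHeight_pow (fun S : Sp g => x S) 2
  rw [h1] at h3
  unfold ht
  push_cast at h3
  linarith

theorem dbl_low {a : Fin (2 * g + 1) → K} {x y : Finset (Fin (2 * g + 1)) → K}
    (h : Double a x y) : 4 * ht (al a x) ≤
      ht (al a y) + 3 * ht (fun S => (rs a S)⁻¹) + 4 * (totalWeight K * cg g) := by
  obtain ⟨t, q, ht0, hq, hy⟩ := h
  set M : Sp g × Sp g → K := fun p => (sg (p.1 : Finset (Fin (2 * g + 1))) p.2 : K) with hM
  set c : Sp g → K := fun R => (rs a R)⁻¹ * q R with hc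
  have hM0 : logHeight M = 0 := sign_ht M fun p => by
    have := sg_sq (p.1 : Finset (Fin (2 * g + 1))) p.2
    show ((sg (p.1 : Finset (Fin (2 * g + 1))) p.2 : ℤ) : K) ^ 2 = 1
    exact_mod_cast this
  have h1 : ht (al a x) ≤ totalWeight K * cg g + logHeight c := by
    have h2 := logHeight_linearMap_apply_le M c
    have h3 : (fun j => ∑ i, M (j, i) * c i) = ((2 : K) ^ g) • (fun S : Sp g => al a x S) := by
      funext S
      have h4 := hq S S.2
      have h5 : ((2 : K) ^ g • fun S : Sp g => al a x S) S = 2 ^ g * (x S ^ 2 / rs a S) := by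
        show (2 : K) ^ g * ((rs a S)⁻¹ * x S ^ 2) = _
        rw [div_eq_mul_inv]
        ring
      rw [h5, h4, ← sum_coe_sort (Sp g)]
      refine sum_congr rfl fun R _ => ?_
      rw [hM, hc]
      unfold sg
      push_cast
      rw [div_eq_mul_inv]
      ring
    rw [h3, logHeight_smul_eq_logHeight _ (pow_ne_zero _ two_ne_zero), hM0] at h2
    unfold ht cg
    linarith
  have h4 : t ^ 2 • c ^ 4 = (fun S : Sp g => (rs a S)⁻¹) ^ 3 * (fun S : Sp g => al a y S) := by
    funext S
    show t ^ 2 * ((rs a S)⁻¹ * q S) ^ 4 = ((rs a S)⁻¹) ^ 3 * ((rs a S)⁻¹ * y S ^ 2)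
    rw [hy S S.2]
    ring
  have h5 := logHeight_pow c 4
  have h6 := logHeight_smul_eq_logHeight (c ^ 4) (pow_ne_zero 2 ht0)
  have h7 := logHeight_mul_le ((fun S : Sp g => (rs a S)⁻¹) ^ 3) (fun S : Sp g => al a y S)
  have h8 := logHeight_pow (fun S : Sp g => (rs a S)⁻¹) 3
  rw [h4] at h6
  unfold ht
  unfold ht at h1
  push_cast at h5 h8
  linarith

/-- the linear map of the signs -/
def sgl (g : ℕ) (K : Type) [Field K] : (Sp g → K) →ₗ[K] (Sp g → K) where
  toFun z S := ∑ R : Sp g, (sg (S : Finset (Fin (2 * g + 1))) R : K) * z R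
  map_add' x y := by
    funext S
    simp only [Pi.add_apply, mul_add, sum_add_distrib]
  map_smul' c y := by
    funext S
    simp only [Pi.smul_apply, smul_eq_mul, RingHom.id_apply, mul_sum]
    exact sum_congr rfl fun R _ => by ring

theorem sgl_inj (z : Sp g → K) (h : sgl g K z = 0) : z = 0 := by
  classical
  have h1 := sg_inj (g := g) (K := K) (z := fun R => if h : R ∈ Sp g then z ⟨R, h⟩ else 0)
    fun S hS => by
      have h2 := congrFun h ⟨S, hS⟩
      have h3 : ∑ R : Sp g, (sg S (R : Finset (Fin (2 * g + 1))) : K) * z R = 0 := h2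
      rw [← sum_coe_sort, ← h3]
      refine sum_congr rfl fun R _ => ?_
      rw [dif_pos R.2]
  funext R
  have h2 := h1 R R.2
  rw [dif_pos R.2] at h2
  exact h2

theorem dbl_up {a : Fin (2 * g + 1) → K} (ha : Function.Injective a) : ∃ C : ℝ, 0 ≤ C ∧
    ∀ x y : Finset (Fin (2 * g + 1)) → K, Double a x y →
      ht (al a y) ≤ 4 * ht (al a x) + C := by
  classical
  obtain ⟨C, hC, hinj⟩ := inj_ht (sgl g K) sgl_inj
  refine ⟨4 * C + 3 * ht (fun S => rs a S), ?_, fun x y h => ?_⟩
  · have := ht_nonneg (fun S => rs a S)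
    positivity
  obtain ⟨t, q, ht0, hq, hy⟩ := h
  set c : Sp g → K := fun R => (rs a R)⁻¹ * q R with hc
  have h1 := hinj c
  have h2 : sgl g K c = ((2 : K) ^ g) • (fun S : Sp g => al a x S) := by
    funext S
    have h4 := hq S S.2
    have h5 : ((2 : K) ^ g • fun S : Sp g => al a x S) S = 2 ^ g * (x S ^ 2 / rs a S) := by
      show (2 : K) ^ g * ((rs a S)⁻¹ * x S ^ 2) = _
      rw [div_eq_mul_inv]
      ring
    rw [h5, h4, ← sum_coe_sort (Sp g)]
    show ∑ R : Sp g, (sg (S : Finset (Fin (2 * g + 1))) R : K) * c R = _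
    refine sum_congr rfl fun R _ => ?_
    rw [hc]
    unfold sg
    push_cast
    rw [div_eq_mul_inv]
    ring
  rw [h2, logHeight_smul_eq_logHeight _ (pow_ne_zero _ two_ne_zero)] at h1
  have h4 : (fun S : Sp g => al a y S) = t ^ 2 • ((fun S : Sp g => rs a S) ^ 3 * c ^ 4) := by
    funext S
    have h5 := rs_ne ha (S : Finset (Fin (2 * g + 1)))
    show (rs a S)⁻¹ * y S ^ 2 = t ^ 2 * (rs a S ^ 3 * ((rs a S)⁻¹ * q S) ^ 4)
    rw [hy S S.2]
    field_simp
  have h5 := logHeight_pow c 4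
  have h6 := logHeight_smul_eq_logHeight ((fun S : Sp g => rs a S) ^ 3 * c ^ 4)
    (pow_ne_zero 2 ht0)
  have h7 := logHeight_mul_le ((fun S : Sp g => rs a S) ^ 3) (c ^ 4)
  have h8 := logHeight_pow (fun S : Sp g => rs a S) 3
  rw [← h4] at h6
  unfold ht
  push_cast at h5 h8
  linarith

/-- The limit exists, and the canonical height is bounded from below. -/
theorem hhat_spec {a : Fin (2 * g + 1) → K} (ha : Function.Injective a)
    {X : ℕ → Finset (Fin (2 * g + 1)) → K} (hX : Orbit a X) :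
    Tendsto (fun n : ℕ => ht (X n) / 4 ^ n) atTop (𝓝 (hhat X)) ∧
      ht (al a (X 1)) - ht (fun S => (rs a S)⁻¹) - 2 * (totalWeight K * cg g) ≤ 8 * hhat X := by
  obtain ⟨D, hD, hup⟩ := dbl_up ha
  have hW := ht_nonneg (fun S => (rs a S)⁻¹)
  have hW' := ht_nonneg (fun S => rs a S)
  have hc : 0 ≤ totalWeight K * cg g := mul_nonneg (Nat.cast_nonneg _) (cg_nonneg g)
  have g1 (n : ℕ) : 4 * ht (al a (X n)) ≤ ht (al a (X (n + 1))) +
      3 * (ht (fun S => (rs a S)⁻¹) + 2 * (totalWeight K * cg g)) := by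
    have := dbl_low (hX n).2.2
    linarith
  have g2 (n : ℕ) : ht (al a (X (n + 1))) ≤ 4 * ht (al a (X n)) + D := hup _ _ (hX n).2.2
  have g3 (n : ℕ) : |ht (al a (X n)) - 2 * ht (X n)| ≤
      ht (fun S => (rs a S)⁻¹) + ht (fun S => rs a S) := by
    rw [abs_le]
    have e1 := al_up a (X n)
    have e2 := al_low ha (X n)
    constructor <;> linarith
  obtain ⟨l, hl, hA⟩ := seq_lim (A := fun n => ht (al a (X n)))
    (h := fun n => ht (X n)) (by linarith) hD g1 g2 g3
  have hlim : hhat X = l := hl.limUnder_eq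
  rw [hlim]
  exact ⟨hl, by linarith⟩

end Pool.Agent.H433.HG
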