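import Pool.Agent.H433.HG.Mult
import Pool.Agent.H433.HG.Ht

/-!
The height of the fourth powers of the theta functions at the double of a point is large.
-/

set_option autoImplicit false
set_option linter.unusedSectionVars false

open NumberField IsDedekindDomain Finset

namespace Pool.Agent.H433.HG

open Pool.Agent.H433.AC
open Pool.Agent.H433.GT (mi le_mi span_ne le_mi_span log_absNorm mp_mul mp_prod mem_of_mul
  lt_pow le_of_simple log_Nm Nm_inf ht_int arch_low)

variable {g : ℕ} {K : Type} [Field K] [NumberField K]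

theorem exists_int (y : Finset (Fin (2 * g + 1)) → K) :
    ∃ (c : K) (z : Finset (Fin (2 * g + 1)) → 𝓞 K), c ≠ 0 ∧ ∀ b, (z b : K) = c * y b := by
  obtain ⟨b, hb⟩ := IsLocalization.exist_integer_multiples_of_finite (nonZeroDivisors (𝓞 K)) y
  choose x0 hx0 using hb
  have hb0 : ((b : 𝓞 K) : K) ≠ 0 := by
    have := nonZeroDivisors.coe_ne_zero b
    exact_mod_cast this
  refine ⟨((b : 𝓞 K) : K), x0, hb0, fun i => ?_⟩
  have h1 := hx0 i
  rw [Algebra.smul_def] at h1
  exact h1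

theorem dl_int (z : Finset (Fin (2 * g + 1)) → 𝓞 K)
    (l : List (Fin (2 * g + 1) × Fin (2 * g + 1))) (B : Finset (Fin (2 * g + 1))) :
    ∃ y : 𝓞 K, (y : K) = dl (fun S => (z S : K)) l B := by
  induction l generalizing B with
  | nil => exact ⟨z B, rfl⟩
  | cons p l ih =>
    obtain ⟨y₁, h1⟩ := ih (insert p.1 B)
    obtain ⟨y₂, h2⟩ := ih (insert p.2 B)
    refine ⟨y₁ - y₂, ?_⟩
    simp only [dl]
    rw [← h1, ← h2]
    simp

/-- the product of the differences of the pairs in a list -/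
def pl (a : Fin (2 * g + 1) → 𝓞 K) (l : List (Fin (2 * g + 1) × Fin (2 * g + 1))) : 𝓞 K :=
  ∏ q ∈ l.toFinset, (a q.1 - a q.2)

theorem pl_ne {a : Fin (2 * g + 1) → 𝓞 K} (h : Dif a)
    {l : List (Fin (2 * g + 1) × Fin (2 * g + 1))} {B : Finset (Fin (2 * g + 1))}
    (hB : Apart l B) : pl a l ≠ 0 :=
  prod_ne_zero_iff.2 fun q hq => h q (apart_sub hB hq)

theorem mp_pl {a : Fin (2 * g + 1) → 𝓞 K} (h : Dif a) (v : HeightOneSpectrum (𝓞 K))
    {l : List (Fin (2 * g + 1) × Fin (2 * g + 1))} {B : Finset (Fin (2 * g + 1))}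
    (hB : Apart l B) : mp v (pl a l) = ∑ q ∈ l.toFinset, mp v (a q.1 - a q.2) :=
  mp_prod _ _ fun q hq => h q (apart_sub hB hq)

theorem mp_single {a : Fin (2 * g + 1) → 𝓞 K} (h : Dif a) {v : HeightOneSpectrum (𝓞 K)}
    {p : Fin (2 * g + 1) × Fin (2 * g + 1)} (hs : Single a p v)
    {q : Fin (2 * g + 1) × Fin (2 * g + 1)} (hq : q ∈ prs (2 * g + 1)) :
    mp v (a q.1 - a q.2) = if q = p then mp v (a p.1 - a p.2) else 0 := by
  split_ifs with hqp
  · rw [hqp]
  · by_contra hne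
    have h1 : 1 ≤ mp v (a q.1 - a q.2) := by omega
    exact hqp (hs.2 q hq ((mem_iff_mp (h q hq)).2 h1))

/-- the norm of an iterated difference -/
theorem norm_dl {a : Fin (2 * g + 1) → 𝓞 K} (h : Dif a) {y : Finset (Fin (2 * g + 1)) → K}
    {z : Finset (Fin (2 * g + 1)) → 𝓞 K} {c : K} (hc : c ≠ 0) (hz : ∀ b, (z b : K) = c * y b)
    {S₀ : Sp g} (h0 : z S₀ ≠ 0)
    (hL : Linear (fun i => (a i : K)) fun S => (z S : K))
    {l : List (Fin (2 * g + 1) × Fin (2 * g + 1))} {B : Finset (Fin (2 * g + 1))} (hl : l ≠ [])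
    (hB : Apart l B) {δ : 𝓞 K} (hδ : (δ : K) = dl (fun S => (z S : K)) l B) (hδ0 : δ ≠ 0)
    {S₁ : Finset (HeightOneSpectrum (𝓞 K))} (hS₁ : ∀ v ∈ S₁, Zero y v) :
    Real.log (Ideal.absNorm (Ideal.span (Set.range fun S : Sp g => z S))) +
      ∑ v ∈ S₁, Real.log (nv v) + Real.log (Nm (pl a l)) ≤
      Real.log (Nm δ) + exs h (Sng a) := by
  classical
  obtain ⟨zz, hzz⟩ : ∃ zz : Sp g → 𝓞 K, zz = fun S : Sp g => z S := ⟨_, rfl⟩
  have ez (S : Sp g) : zz S = z S := by rw [hzz]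
  have hb : zz S₀ ≠ 0 := by rwa [ez]
  rw [← hzz]
  have hI := span_ne hb
  have hpl := pl_ne h hB
  set V : Finset (HeightOneSpectrum (𝓞 K)) := (Ideal.finite_factors hI).toFinset ∪
    (S₁ ∪ ((finite_mem hδ0).toFinset ∪ Vf h)) with hV
  have hVf : Vf h ⊆ V := fun v hv => by
    rw [hV, mem_union, mem_union, mem_union]
    exact Or.inr (Or.inr (Or.inr hv))
  have e1 := log_absNorm hI V fun v hv => by
    rw [hV, mem_union, Set.Finite.mem_toFinset]
    exact Or.inl hv
  have e2 := log_Nm hδ0 V fun v hv => by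
    rw [hV, mem_union, mem_union, mem_union]
    refine Or.inr (Or.inr (Or.inl ?_))
    rw [Set.Finite.mem_toFinset]
    exact hv
  have e3 := log_Nm hpl V fun v hv => by
    obtain ⟨q, hq, hqv⟩ := (Ideal.IsPrime.prod_mem_iff (hp := v.isPrime)).1 hv
    exact hVf (mem_Vf h (apart_sub hB hq) hqv)
  have hSV : S₁ ⊆ V := fun v hv => by
    rw [hV, mem_union, mem_union]
    exact Or.inr (Or.inl hv)
  have e4 : ∑ v ∈ S₁, Real.log (nv v) =
      ∑ v ∈ V, (if v ∈ S₁ then (1 : ℝ) else 0) * Real.log (nv v) := by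
    have : ∀ v ∈ V, (if v ∈ S₁ then (1 : ℝ) else 0) * Real.log (nv v) =
        if v ∈ S₁ then Real.log (nv v) else 0 := fun v _ => by split_ifs <;> simp
    rw [sum_congr rfl this, ← sum_filter, filter_mem_eq_inter, inter_eq_right.2 hSV]
  have hinj := h.inj
  -- the local estimates
  have hdif (v : HeightOneSpectrum (𝓞 K)) : ∀ S ∈ Sp g, ∀ S' ∈ Sp g, z S - z S' ∈
      v.asIdeal ^ (mi v (Ideal.span (Set.range zz)) + if v ∈ S₁ then 1 else 0) := by
    intro S hS S' hS'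
    have h1 := (le_mi_span (v := v) hb _).1 le_rfl
    have h2 := h1 ⟨S, hS⟩
    have h3 := h1 ⟨S', hS'⟩
    rw [ez] at h2 h3
    split_ifs with hv
    · rw [lt_pow]
      have h4 := hS₁ v hv S hS S' hS'
      have h5 := (Pool.Agent.H433.GT.mem_pow _ _).1 h2
      refine lt_of_lt_of_le ?_ h5
      push_cast
      show v.valuation K ((z S : K) - (z S' : K)) < v.valuation K (z S : K)
      rw [hz S, hz S', ← mul_sub, map_mul, map_mul]
      exact (mul_lt_mul_iff_of_pos_left (zero_lt_iff.2 (by rwa [Ne, map_eq_zero]))).2 h4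
    · rw [add_zero]
      exact Ideal.sub_mem _ h2 h3
  have hδv (v : HeightOneSpectrum (𝓞 K)) :
      mi v (Ideal.span (Set.range zz)) + (if v ∈ S₁ then 1 else 0) ≤ mp v δ := by
    rw [← le_mp hδ0, Pool.Agent.H433.GT.mem_pow]
    exact dl_gen hl hB hδ (hdif v) S₀.2
  have key := sum_exs h hVf (P := Sng a) (fun v => (mi v (Ideal.span (Set.range zz)) : ℝ) +
    (if v ∈ S₁ then (1 : ℝ) else 0) + mp v (pl a l) - mp v δ) (fun v => ?_)
    fun v ⟨p, hp, hs⟩ => ?_
  · have e5 : ∑ v ∈ V, ((mi v (Ideal.span (Set.range zz)) : ℝ) +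
        (if v ∈ S₁ then (1 : ℝ) else 0) + mp v (pl a l) - mp v δ) * Real.log (nv v) =
        ∑ v ∈ V, (mi v (Ideal.span (Set.range zz)) : ℝ) * Real.log (nv v) +
        ∑ v ∈ V, (if v ∈ S₁ then (1 : ℝ) else 0) * Real.log (nv v) +
        ∑ v ∈ V, (mp v (pl a l) : ℝ) * Real.log (nv v) -
        ∑ v ∈ V, (mp v δ : ℝ) * Real.log (nv v) := by
      rw [← sum_add_distrib, ← sum_add_distrib, ← sum_sub_distrib]
      exact sum_congr rfl fun v _ => by ring
    rw [e5, ← e1, ← e2, ← e3, ← e4] at key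
    linarith
  · have h1 := hδv v
    have h2 : mp v (pl a l) ≤ mu a v := by
      rw [mp_pl h v hB]
      exact sum_le_sum_of_subset (apart_sub hB)
    have h3 : (mi v (Ideal.span (Set.range zz)) : ℝ) + (if v ∈ S₁ then (1 : ℝ) else 0) ≤
        mp v δ := by
      have : ((mi v (Ideal.span (Set.range zz)) + (if v ∈ S₁ then 1 else 0) : ℕ) : ℝ) ≤
          mp v δ := by exact_mod_cast h1
      push_cast at this
      exact this
    have h4 : (mp v (pl a l) : ℝ) ≤ mu a v := by exact_mod_cast h2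
    linarith
  · have h2 : mp v (pl a l) = if p ∈ l then mp v (a p.1 - a p.2) else 0 := by
      rw [mp_pl h v hB, sum_congr rfl fun q hq => mp_single h hs (apart_sub hB hq),
        sum_ite_eq']
      simp only [List.mem_toFinset]
    have h3 : mi v (Ideal.span (Set.range zz)) + (if v ∈ S₁ then 1 else 0) +
        (if p ∈ l then mp v (a p.1 - a p.2) else 0) ≤ mp v δ := by
      by_cases hpl : p ∈ l
      · rw [if_pos hpl, ← le_mp hδ0, Pool.Agent.H433.GT.mem_pow]
        exact dl_single h hL hB hδ (hdif v) hs hpl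
      · rw [if_neg hpl, add_zero]
        exact hδv v
    rw [h2]
    have : ((mi v (Ideal.span (Set.range zz)) + (if v ∈ S₁ then 1 else 0) +
        (if p ∈ l then mp v (a p.1 - a p.2) else 0) : ℕ) : ℝ) ≤ mp v δ := by exact_mod_cast h3
    push_cast at this ⊢
    linarith

theorem prod_low {a : Fin (2 * g + 1) → 𝓞 K} {R : ℝ} (hR : 0 ≤ R) {w : InfinitePlace K}
    (h : ∀ q ∈ prs (2 * g + 1), R ≤ w ((a q.1 - a q.2 : 𝓞 K) : K))
    {s : Finset (Fin (2 * g + 1) × Fin (2 * g + 1))} (hs : s ⊆ prs (2 * g + 1)) :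
    R ^ s.card ≤ w ((∏ q ∈ s, (a q.1 - a q.2) : 𝓞 K) : K) := by
  have h1 : ((∏ q ∈ s, (a q.1 - a q.2) : 𝓞 K) : K) = ∏ q ∈ s, ((a q.1 - a q.2 : 𝓞 K) : K) := by
    push_cast
    rfl
  rw [h1, map_prod, ← prod_const]
  exact prod_le_prod (fun _ _ => hR) fun q hq => h q (hs hq)

theorem prod_up {a : Fin (2 * g + 1) → 𝓞 K} {M : ℝ} {w : InfinitePlace K}
    (h : ∀ q ∈ prs (2 * g + 1), w ((a q.1 - a q.2 : 𝓞 K) : K) ≤ M)
    {s : Finset (Fin (2 * g + 1) × Fin (2 * g + 1))} (hs : s ⊆ prs (2 * g + 1)) :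
    w ((∏ q ∈ s, (a q.1 - a q.2) : 𝓞 K) : K) ≤ M ^ s.card := by
  have h1 : ((∏ q ∈ s, (a q.1 - a q.2) : 𝓞 K) : K) = ∏ q ∈ s, ((a q.1 - a q.2 : 𝓞 K) : K) := by
    push_cast
    rfl
  rw [h1, map_prod, ← prod_const]
  exact prod_le_prod (fun _ _ => apply_nonneg _ _) fun q hq => h q (hs hq)

/-- signs do not change the height -/
theorem ht_sign {ι : Type} [Finite ι] (e x : ι → K) (he : ∀ i, e i ^ 2 = 1) :
    Height.logHeight (e * x) = Height.logHeight x := by
  have h0 := sign_ht e he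
  refine le_antisymm ?_ ?_
  · have := Height.logHeight_mul_le e x
    linarith
  · have h1 := Height.logHeight_mul_le e (e * x)
    have h2 : e * (e * x) = x := by
      funext i
      have := he i
      simp only [Pi.mul_apply]
      rw [← mul_assoc, ← pow_two, this, one_mul]
    rw [h2] at h1
    linarith

theorem inj_of {a : Fin (2 * g + 1) → 𝓞 K} (h : Function.Injective a) :
    Function.Injective fun i => (a i : K) := fun i j hij => h (by
    have h1 : (a i : K) = (a j : K) := hij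
    exact_mod_cast h1)

/-- the height in terms of integral vectors -/
theorem al_ht {a : Fin (2 * g + 1) → 𝓞 K} (h : Dif a) {y : Finset (Fin (2 * g + 1)) → K}
    {z : Finset (Fin (2 * g + 1)) → 𝓞 K} {c : K} (hc : c ≠ 0)
    (hz : ∀ b, (z b : K) = c * y b) :
    ht (al (fun i => (a i : K)) y) =
      Height.logHeight fun S : Sp g => ((W a S * z S ^ 2 : 𝓞 K) : K) := by
  have hinj := inj_of h.inj
  have h1 (S : Sp g) := W_rs hinj (S : Finset (Fin (2 * g + 1)))
  choose e he hW using h1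
  set D : K := ∏ q ∈ prs (2 * g + 1), ((a q.1 : K) - (a q.2 : K)) with hD
  have hD0 : D ≠ 0 := prod_ne_zero_iff.2 fun q hq => by
    rw [← dif_co]
    exact_mod_cast h q hq
  have h2 : (fun S : Sp g => ((W a S * z S ^ 2 : 𝓞 K) : K)) =
      (D * c ^ 2) • (e * fun S : Sp g => al (fun i => (a i : K)) y S) := by
    funext S
    show ((W a S * z S ^ 2 : 𝓞 K) : K) = D * c ^ 2 *
      (e S * ((rs (fun i => (a i : K)) (S : Finset (Fin (2 * g + 1))))⁻¹ * y S ^ 2))
    have e1 : ((W a S * z S ^ 2 : 𝓞 K) : K) = ((W a S : 𝓞 K) : K) * (z S : K) ^ 2 := by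
      push_cast
      rfl
    rw [e1, W_co, hW, hz]
    ring
  rw [h2, Height.logHeight_smul_eq_logHeight _ (mul_ne_zero hD0 (pow_ne_zero 2 hc)),
    ht_sign _ _ he]
  rfl

theorem hm_eq {a : Fin (2 * g + 1) → 𝓞 K} (h : Dif a) :
    hm a = Height.logHeight fun S : Sp g => ((W a S : 𝓞 K) : K) := by
  have h1 := al_ht h (y := fun _ => 1) (z := fun _ => 1) (c := 1) one_ne_zero (by simp)
  have h2 : ht (al (fun i => (a i : K)) fun _ => 1) = hm a := by
    unfold hm
    congr 1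
    funext S
    unfold al
    ring
  rw [← h2, h1]
  congr 1
  funext S
  rw [one_pow, mul_one]

theorem Sp_nonempty (g : ℕ) : (Sp g).Nonempty := by
  unfold Sp
  rw [powersetCard_nonempty, card_univ, Fintype.card_fin]
  omega

theorem exists_sep (hg : 1 ≤ g) (p : Fin (2 * g + 1) × Fin (2 * g + 1))
    (hp : p ∈ prs (2 * g + 1)) : ∃ S ∈ Sp g, p ∉ Gs S := by
  have hne := (mem_prs.1 hp).ne
  obtain ⟨T, hT, hTc⟩ := exists_subset_card_eq (s := (univ.erase p.1).erase p.2) (n := g) (by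
    rw [card_erase_of_mem (mem_erase.2 ⟨hne.symm, mem_univ _⟩), card_erase_of_mem (mem_univ _),
      card_univ, Fintype.card_fin]
    omega)
  have h1 : p.1 ∉ T := fun h => by
    have := hT h
    rw [mem_erase, mem_erase] at this
    exact this.2.1 rfl
  have h2 : p.2 ∉ T := fun h => by
    have := hT h
    rw [mem_erase, mem_erase] at this
    exact this.1 rfl
  refine ⟨insert p.1 T, insert_mem hTc h1, fun h => ?_⟩
  have h3 := (mem_filter.1 h).2
  have h4 := h3.1 (mem_insert_self _ _)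
  rcases mem_insert.1 h4 with h5 | h5
  · exact hne h5.symm
  · exact h2 h5

/-- the height of the point of the moduli space, upper bound -/
theorem hm_up {a : Fin (2 * g + 1) → 𝓞 K} (h : Dif a) {M : ℝ} 
    (hw : ∀ w : InfinitePlace K, ∀ q ∈ prs (2 * g + 1), w ((a q.1 - a q.2 : 𝓞 K) : K) ≤ M) :
    hm a ≤ g ^ 2 * (Module.finrank ℚ K * Real.log M) := by
  obtain ⟨S₀, hS₀⟩ := Sp_nonempty g
  obtain ⟨ww, hww⟩ : ∃ ww : Sp g → 𝓞 K, ww = fun S : Sp g => W a S := ⟨_, rfl⟩
  have ew (S : Sp g) : ww S = W a S := by rw [hww]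
  have hW0 : ww ⟨S₀, hS₀⟩ ≠ 0 := by
    rw [ew]
    exact Wne h _
  have e0 : (fun S : Sp g => ((W a S : 𝓞 K) : K)) = fun S => ((ww S : 𝓞 K) : K) := by rw [hww]
  rw [hm_eq h, e0, ht_int hW0]
  have h1 : (0 : ℝ) ≤ Real.log (Ideal.absNorm (Ideal.span (Set.range ww))) :=
    Real.log_natCast_nonneg _
  have h2 : ∏ w : InfinitePlace K, (⨆ i, w ((ww i : 𝓞 K) : K)) ^ w.mult ≤
      (M ^ (g ^ 2)) ^ Module.finrank ℚ K := by
    rw [← NumberField.totalWeight_eq_finrank, NumberField.totalWeight_eq_sum_mult,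
      ← prod_pow_eq_pow_sum]
    refine prod_le_prod (fun w _ => pow_nonneg (Real.iSup_nonneg fun i => apply_nonneg _ _) _)
      fun w _ => ?_
    have : Nonempty (Sp g) := ⟨⟨S₀, hS₀⟩⟩
    refine pow_le_pow_left₀ (Real.iSup_nonneg fun i => apply_nonneg _ _) (ciSup_le fun s => ?_) _
    rw [ew, ← card_Gs s.2]
    exact prod_up (hw w) (Gs_sub _)
  have h3 : 0 < ∏ w : InfinitePlace K, (⨆ i, w ((ww i : 𝓞 K) : K)) ^ w.mult := by
    refine prod_pos fun w _ => pow_pos ?_ _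
    refine lt_of_lt_of_le ?_ (le_ciSup (f := fun i => w ((ww i : 𝓞 K) : K))
      (Set.finite_range _).bddAbove ⟨S₀, hS₀⟩)
    exact InfinitePlace.pos_iff.2 (by exact_mod_cast hW0)
  have h4 := Real.log_le_log h3 h2
  rw [Real.log_pow, Real.log_pow] at h4
  push_cast at h4
  linarith

/-- the height of the point of the moduli space, lower bound -/
theorem hm_low (hg : 1 ≤ g) {a : Fin (2 * g + 1) → 𝓞 K} (h : Dif a) {R : ℝ} (hR : 0 < R)
    (hw : ∀ w : InfinitePlace K, ∀ q ∈ prs (2 * g + 1), R ≤ w ((a q.1 - a q.2 : 𝓞 K) : K)) :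
    g ^ 2 * (Module.finrank ℚ K * Real.log R) - ex h ≤ hm a := by
  obtain ⟨S₀, hS₀⟩ := Sp_nonempty g
  have h1 := (norm_W h ⟨S₀, hS₀⟩ (exists_sep hg)).trans (exs_le h)
  obtain ⟨ww, hww⟩ : ∃ ww : Sp g → 𝓞 K, ww = fun S : Sp g => W a S := ⟨_, rfl⟩
  have ew (S : Sp g) : ww S = W a S := by rw [hww]
  have hW0 : ww ⟨S₀, hS₀⟩ ≠ 0 := by
    rw [ew]
    exact Wne h _
  have e0 : (fun S : Sp g => ((W a S : 𝓞 K) : K)) = fun S => ((ww S : 𝓞 K) : K) := by rw [hww]
  rw [← hww] at h1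
  rw [hm_eq h, e0, ht_int hW0]
  have h2 := arch_low (Z := ww) (x := (1 : 𝓞 K)) one_ne_zero (c := R ^ (g ^ 2)) (by positivity) 1
    fun w => ⟨⟨S₀, hS₀⟩, by
      have := prod_low hR.le (hw w) (Gs_sub S₀)
      rw [card_Gs hS₀] at this
      have e1 : w ((1 : 𝓞 K) : K) = 1 := by simp
      rw [ew, e1, one_pow, mul_one]
      exact this⟩
  have h3 : Real.log (Nm (1 : 𝓞 K)) = 0 := by
    unfold Nm
    rw [Ideal.span_singleton_one, Ideal.absNorm_top]
    simp
  rw [h3, Real.log_pow] at h2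
  push_cast at h2
  linarith

theorem norm_pl {a : Fin (2 * g + 1) → 𝓞 K} {R : ℝ} (hR : 0 < R)
    (hw : ∀ w : InfinitePlace K, ∀ q ∈ prs (2 * g + 1), R ≤ w ((a q.1 - a q.2 : 𝓞 K) : K))
    {l : List (Fin (2 * g + 1) × Fin (2 * g + 1))} {B : Finset (Fin (2 * g + 1))}
    (hB : Apart l B) : l.length * (Module.finrank ℚ K * Real.log R) ≤ Real.log (Nm (pl a l)) := by
  have h1 : (R ^ l.length) ^ Module.finrank ℚ K ≤ Nm (pl a l) := by
    rw [Nm_inf, ← NumberField.totalWeight_eq_finrank, NumberField.totalWeight_eq_sum_mult,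
      ← prod_pow_eq_pow_sum]
    refine prod_le_prod (fun w _ => by positivity) fun w _ => ?_
    refine pow_le_pow_left₀ (by positivity) ?_ _
    have := prod_low hR.le (hw w) (apart_sub hB)
    rw [List.toFinset_card_of_nodup (apart_nodup hB)] at this
    exact this
  have h2 := Real.log_le_log (by positivity) h1
  rw [Real.log_pow, Real.log_pow] at h2
  linarith

theorem dl_zero {x : Finset (Fin (2 * g + 1)) → K} (hb : ∀ S ∈ Sp g, x S = 0)
    (l : List (Fin (2 * g + 1) × Fin (2 * g + 1))) (B : Finset (Fin (2 * g + 1)))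
    (h : Apart l B) : dl x l B = 0 := by
  induction l generalizing B with
  | nil =>
    have h3 := h.2.2
    rw [List.length_nil] at h3
    exact hb _ (mem_Sp.2 h3)
  | cons p l ih =>
    obtain ⟨h1, h2⟩ := apart_cons h
    simp only [dl]
    rw [ih _ h1, ih _ h2, sub_zero]

/-- the height of the double of a point -/
theorem al_low_gen {a : Fin (2 * g + 1) → 𝓞 K} (h : Dif a) {R : ℝ} (hR : 0 < R)
    (hw : ∀ w : InfinitePlace K, ∀ q ∈ prs (2 * g + 1), R ≤ w ((a q.1 - a q.2 : 𝓞 K) : K))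
    {y : Finset (Fin (2 * g + 1)) → K} {t : K} (hy : ∀ S ∈ Sp g, ∃ q, y S = t * q ^ 2)
    (hL : Linear (fun i => (a i : K)) y)
    {l : List (Fin (2 * g + 1) × Fin (2 * g + 1))} {B : Finset (Fin (2 * g + 1))} (hl : l ≠ [])
    (hB : Apart l B) (hd : dl y l B ≠ 0)
    {S₁ : Finset (HeightOneSpectrum (𝓞 K))} (hS₁ : ∀ v ∈ S₁, Zero y v) :
    (g ^ 2 + 2 * l.length) * (Module.finrank ℚ K * Real.log R) -
      l.length * (Module.finrank ℚ K * Real.log 4) + 2 * ∑ v ∈ S₁, Real.log (nv v) -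
      exs h (Smp a) - 2 * exs h (Sng a) ≤
      ht (al (fun i => (a i : K)) y) := by
  obtain ⟨γ, z, hγ, hz⟩ := exists_int y
  have hzf : (fun S => (z S : K)) = fun S => γ * y S := funext hz
  obtain ⟨δ, hδ⟩ := dl_int z l B
  have hδ0 : δ ≠ 0 := by
    intro h0
    rw [h0, hzf, dl_smul] at hδ
    simp only [map_zero] at hδ
    exact mul_ne_zero hγ hd hδ.symm
  have hLz : Linear (fun i => (a i : K)) fun S => (z S : K) := by
    intro U hU
    show (z U : K) = ∑ i ∈ U, _ * (z _ : K)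
    rw [hz, hL U hU, mul_sum]
    refine sum_congr rfl fun i _ => ?_
    rw [hz]
    ring
  have hyz (S : Finset (Fin (2 * g + 1))) (hS : S ∈ Sp g) : ∃ q, (z S : K) = (γ * t) * q ^ 2 := by
    obtain ⟨q, hq⟩ := hy S hS
    exact ⟨q, by rw [hz, hq]; ring⟩
  -- a coordinate which is not zero
  obtain ⟨S₀, hS₀⟩ : ∃ S₀ : Sp g, z S₀ ≠ 0 := by
    by_contra hcon
    push Not at hcon
    apply hδ0
    have h1 := dl_zero (x := fun S => (z S : K)) (fun S hS => by
      have := hcon ⟨S, hS⟩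
      simp only at this
      show (z S : K) = 0
      rw [this]
      simp) l B hB
    rw [← hδ] at h1
    exact_mod_cast h1
  obtain ⟨ww, hww⟩ : ∃ ww : Sp g → 𝓞 K, ww = fun S : Sp g => W a S * z S ^ 2 := ⟨_, rfl⟩
  have ew (S : Sp g) : ww S = W a S * z S ^ 2 := by rw [hww]
  have hw0 : ww S₀ ≠ 0 := by
    rw [ew]
    exact mul_ne_zero (Wne h _) (pow_ne_zero 2 hS₀)
  have e0 : (fun S : Sp g => ((W a S * z S ^ 2 : 𝓞 K) : K)) = fun S => ((ww S : 𝓞 K) : K) := by
    rw [hww]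
  have h1 := norm_al h hS₀ hLz hyz
  rw [← hww] at h1
  have h2 := norm_dl h hγ hz hS₀ hLz hl hB hδ hδ0 hS₁
  have h3 := norm_pl hR hw hB
  have h4 := arch_low (Z := ww) hδ0 (c := R ^ (g ^ 2) / 4 ^ l.length) (by positivity) 2
    fun w => by
      have : Nonempty (Sp g) := ⟨S₀⟩
      obtain ⟨S, -, hS⟩ := exists_max_image (univ : Finset (Sp g)) (fun S => w (z S : K))
        univ_nonempty
      refine ⟨S, ?_⟩
      have h5 : w (δ : K) ≤ 2 ^ l.length * w (z S : K) := by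
        rw [hδ]
        refine dl_abs (w := w) (fun y z => ?_) (fun T hT => hS ⟨T, hT⟩ (mem_univ _)) l B hB
        rw [← InfinitePlace.norm_embedding_eq, ← InfinitePlace.norm_embedding_eq w y,
          ← InfinitePlace.norm_embedding_eq w z, map_sub]
        exact norm_sub_le _ _
      have h6 : w (δ : K) ^ 2 ≤ (2 ^ l.length * w (z S : K)) ^ 2 :=
        pow_le_pow_left₀ (apply_nonneg _ _) h5 2
      have h7 := prod_low hR.le (hw w) (Gs_sub (S : Finset (Fin (2 * g + 1))))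
      rw [card_Gs S.2] at h7
      rw [ew]
      push_cast
      rw [map_mul, map_pow]
      have h8 : (4 : ℝ) ^ l.length = (2 ^ l.length) ^ 2 := by
        rw [← pow_mul, Nat.mul_comm l.length 2, pow_mul]
        norm_num
      rw [h8]
      calc R ^ g ^ 2 / (2 ^ l.length) ^ 2 * w (δ : K) ^ 2
          ≤ R ^ g ^ 2 / (2 ^ l.length) ^ 2 * (2 ^ l.length * w (z S : K)) ^ 2 := by gcongr
        _ = R ^ g ^ 2 * w (z S : K) ^ 2 := by
          field_simp
        _ ≤ _ := mul_le_mul_of_nonneg_right h7 (by positivity)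
  rw [al_ht h hγ hz, e0, ht_int hw0]
  rw [Real.log_div (by positivity) (by positivity), Real.log_pow, Real.log_pow] at h4
  push_cast at h4
  linarith

end Pool.Agent.H433.HG
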