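import Mathlib.RingTheory.Polynomial.Vieta
import Mathlib.Algebra.Polynomial.Expand
import Mathlib.Algebra.CharZero.Defs
import Mathlib.Tactic

/-!
A matrix of signs is invertible.
-/

set_option autoImplicit false
set_option linter.unusedSectionVars false

open Finset Polynomial

namespace Pool.Agent.H433.HG

variable {α : Type} [DecidableEq α] {K : Type} [Field K]

theorem conn {F : Finset α} {m : ℕ} {f : Finset α → K}
    (h : ∀ a ∈ F, ∀ b ∈ F, ∀ R ⊆ F, R.card = m → a ∉ R → b ∉ R → f (insert a R) = f (insert b R))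
    {S S' : Finset α} (hS : S ∈ powersetCard (m + 1) F) (hS' : S' ∈ powersetCard (m + 1) F) :
    f S = f S' := by
  rw [mem_powersetCard] at hS'
  obtain ⟨hSF', hc'⟩ := hS'
  have key (k : ℕ) : ∀ S : Finset α, S ⊆ F → S.card = m + 1 → (S \ S').card ≤ k →
      f S = f S' := by
    induction k with
    | zero =>
      intro S hS hc hm
      rw [Nat.le_zero, card_eq_zero, sdiff_eq_empty_iff_subset] at hm
      rw [eq_of_subset_of_card_le hm (by rw [hc, hc'])]
    | succ k ih =>
      intro S hS hc hm
      by_cases he : S = S'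
      · rw [he]
      have h1 : (S \ S').Nonempty := by
        rw [sdiff_nonempty]
        intro hs
        exact he (eq_of_subset_of_card_le hs (by rw [hc, hc']))
      have h2 : (S' \ S).Nonempty := by
        rw [sdiff_nonempty]
        intro hs
        exact he (eq_of_subset_of_card_le hs (by rw [hc, hc'])).symm
      obtain ⟨i, hi⟩ := h1
      obtain ⟨j, hj⟩ := h2
      rw [mem_sdiff] at hi hj
      have hB : (S.erase i).card = m := by
        rw [card_erase_of_mem hi.1, hc]
        rfl
      have hiB : i ∉ S.erase i := notMem_erase _ _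
      have hjB : j ∉ S.erase i := fun h => hj.2 (mem_erase.1 h).2
      have hsub : S.erase i ⊆ F := (erase_subset _ _).trans hS
      have e1 := h i (hS hi.1) j (hSF' hj.1) (S.erase i) hsub hB hiB hjB
      rw [insert_erase hi.1] at e1
      rw [e1]
      refine ih _ (insert_subset (hSF' hj.1) hsub) ?_ ?_
      · rw [card_insert_of_notMem hjB, hB]
      have e2 : insert j (S.erase i) \ S' ⊆ (S \ S').erase i := by
        intro k hk
        rw [mem_sdiff, mem_insert, mem_erase] at hk
        rw [mem_erase, mem_sdiff]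
        rcases hk.1 with h3 | h3
        · exact absurd (h3 ▸ hj.1) hk.2
        · exact ⟨h3.1, h3.2, hk.2⟩
      have e3 := card_le_card e2
      rw [card_erase_of_mem (mem_sdiff.2 hi)] at e3
      omega
  rw [mem_powersetCard] at hS
  exact key _ S hS.1 hS.2 le_rfl

/-- the sum of a row -/
theorem row_ne [CharZero K] {F S : Finset α} {k : ℕ} (hF : F.card = 2 * (k + 1) + 1)
    (hS : S ⊆ F) (hc : S.card = k + 2) :
    ∑ R ∈ powersetCard (k + 2) F, (-1 : K) ^ (S ∩ R).card ≠ 0 := by
  have h1 := Finset.prod_X_add_C_coeff F (fun i => if i ∈ S then (-1 : K) else 1)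
    (k := k + 1) (by omega)
  have h2 : F.card - (k + 1) = k + 2 := by omega
  rw [h2] at h1
  have h3 : ∑ t ∈ powersetCard (k + 2) F, ∏ i ∈ t, (if i ∈ S then (-1 : K) else 1) =
      ∑ R ∈ powersetCard (k + 2) F, (-1 : K) ^ (S ∩ R).card := by
    refine sum_congr rfl fun R _ => ?_
    rw [prod_ite, prod_const, prod_const_one, mul_one, filter_mem_eq_inter, inter_comm]
  rw [← h3, ← h1]
  have h4 : (∏ i ∈ F, (X + C (if i ∈ S then (-1 : K) else 1))) =
      (X - 1) * expand K 2 ((X - 1) ^ (k + 1)) := by
    have e1 : (∏ i ∈ F, (X + C (if i ∈ S then (-1 : K) else 1))) =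
        (∏ i ∈ S, (X - 1 : K[X])) * ∏ i ∈ F \ S, (X + 1 : K[X]) := by
      rw [← prod_sdiff hS, mul_comm]
      congr 1
      · refine prod_congr rfl fun i hi => ?_
        rw [if_pos hi]
        simp [sub_eq_add_neg]
      · refine prod_congr rfl fun i hi => ?_
        rw [if_neg (mem_sdiff.1 hi).2]
        simp
    rw [e1, prod_const, prod_const, card_sdiff_of_subset hS, hF, hc]
    have e2 : 2 * (k + 1) + 1 - (k + 2) = k + 1 := by omega
    rw [e2, map_pow, map_sub, expand_X, map_one, pow_succ' _ (k + 1), mul_assoc, ← mul_pow]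
    congr 2
    ring
  rw [h4, sub_mul, one_mul, coeff_sub, coeff_X_mul, coeff_expand (by norm_num),
    coeff_expand (by norm_num)]
  have h5 (j : ℕ) (hj : j ≤ k + 1) : ((X - 1 : K[X]) ^ (k + 1)).coeff j ≠ 0 := by
    have e1 : (X - 1 : K[X]) = X + C (-1) := by simp [sub_eq_add_neg]
    rw [e1, coeff_X_add_C_pow]
    refine mul_ne_zero (pow_ne_zero _ (by norm_num)) ?_
    rw [Nat.cast_ne_zero]
    exact (Nat.choose_pos hj).ne'
  rcases Nat.even_or_odd k with hk | hk
  · have h6 : 2 ∣ k := hk.two_dvd
    have h7 : ¬ 2 ∣ k + 1 := by omega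
    rw [if_pos h6, if_neg h7, sub_zero]
    exact h5 _ (by omega)
  · have h6 : ¬ 2 ∣ k := by
      rw [Nat.two_dvd_ne_zero]
      exact Nat.odd_iff.1 hk
    have h7 : 2 ∣ k + 1 := by omega
    rw [if_neg h6, if_pos h7, zero_sub]
    exact neg_ne_zero.2 (h5 _ (by omega))

/-- The matrix of the signs `(-1) ^ |S ∩ R|` is invertible. -/
theorem sign_inj [CharZero K] (k : ℕ) : ∀ (F : Finset α), F.card = 2 * k + 1 →
    ∀ f : Finset α → K, (∀ S ∈ powersetCard (k + 1) F,
      ∑ R ∈ powersetCard (k + 1) F, (-1 : K) ^ (S ∩ R).card * f R = 0) →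
      ∀ R ∈ powersetCard (k + 1) F, f R = 0 := by
  induction k with
  | zero =>
    intro F hF f h R hR
    obtain ⟨x, rfl⟩ := card_eq_one.1 hF
    have h0 : powersetCard (0 + 1) ({x} : Finset α) = {{x}} := by
      have := powersetCard_self ({x} : Finset α)
      rw [card_singleton] at this
      exact this
    rw [h0] at h hR
    have h1 := h {x} (mem_singleton_self _)
    rw [sum_singleton, inter_self, card_singleton] at h1
    rw [mem_singleton.1 hR]
    linear_combination -h1
  | succ k ih =>
    intro F hF f h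
    have hconst : ∀ S ∈ powersetCard (k + 2) F, ∀ S' ∈ powersetCard (k + 2) F, f S = f S' := by
      intro S hS S' hS'
      refine conn (fun a ha b hb R hR hc haR hbR => ?_) hS hS'
      rcases eq_or_ne a b with rfl | hab
      · rfl
      set F' := (F.erase a).erase b with hF'
      have hcF' : F'.card = 2 * k + 1 := by
        rw [hF', card_erase_of_mem (mem_erase.2 ⟨hab.symm, hb⟩), card_erase_of_mem ha, hF]
        omega
      have hsub {T : Finset α} (hT : T ⊆ F') : T ⊆ F ∧ a ∉ T ∧ b ∉ T := by
        refine ⟨fun i hi => (mem_erase.1 (mem_erase.1 (hT hi)).2).2, fun hm => ?_, fun hm => ?_⟩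
        · exact (mem_erase.1 (mem_erase.1 (hT hm)).2).1 rfl
        · exact (mem_erase.1 (hT hm)).1 rfl
      have key := ih F' hcF' (fun T => f (insert a T) - f (insert b T)) (fun T hT => ?_) R ?_
      · exact sub_eq_zero.1 key
      · rw [mem_powersetCard] at hT
        obtain ⟨hTF, haT, hbT⟩ := hsub hT.1
        have hTa : insert a T ∈ powersetCard (k + 2) F := by
          rw [mem_powersetCard]
          exact ⟨insert_subset ha hTF, by rw [card_insert_of_notMem haT, hT.2]⟩
        have hTb : insert b T ∈ powersetCard (k + 2) F := by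
          rw [mem_powersetCard]
          exact ⟨insert_subset hb hTF, by rw [card_insert_of_notMem hbT, hT.2]⟩
        have e1 := h _ hTa
        have e2 := h _ hTb
        have e3 : ∑ Q ∈ powersetCard (k + 2) F, ((-1 : K) ^ (insert a T ∩ Q).card -
            (-1 : K) ^ (insert b T ∩ Q).card) * f Q = 0 := by
          simp only [sub_mul, sum_sub_distrib]
          rw [e1, e2, sub_zero]
        have hna (Q : Finset α) (hQ : a ∉ Q) : insert a T ∩ Q = T ∩ Q := insert_inter_of_notMem hQ
        have hnb (Q : Finset α) (hQ : b ∉ Q) : insert b T ∩ Q = T ∩ Q := insert_inter_of_notMem hQ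
        have hya (Q : Finset α) (hQ : a ∈ Q) : (insert a T ∩ Q).card = (T ∩ Q).card + 1 := by
          rw [insert_inter_of_mem hQ, card_insert_of_notMem]
          exact fun hm => haT (mem_inter.1 hm).1
        have hyb (Q : Finset α) (hQ : b ∈ Q) : (insert b T ∩ Q).card = (T ∩ Q).card + 1 := by
          rw [insert_inter_of_mem hQ, card_insert_of_notMem]
          exact fun hm => hbT (mem_inter.1 hm).1
        have e4 : ∑ Q ∈ powersetCard (k + 2) F, ((-1 : K) ^ (insert a T ∩ Q).card -
            (-1 : K) ^ (insert b T ∩ Q).card) * f Q =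
            ∑ Q ∈ (powersetCard (k + 2) F).filter (fun Q => a ∈ Q ∧ b ∉ Q),
              (-2 * (-1 : K) ^ (T ∩ Q).card) * f Q +
            ∑ Q ∈ (powersetCard (k + 2) F).filter (fun Q => b ∈ Q ∧ a ∉ Q),
              (2 * (-1 : K) ^ (T ∩ Q).card) * f Q := by
          rw [sum_filter, sum_filter, ← sum_add_distrib]
          refine sum_congr rfl fun Q _ => ?_
          by_cases h1 : a ∈ Q
          · by_cases h2 : b ∈ Q
            · rw [hya Q h1, hyb Q h2, if_neg (fun h => h.2 h2), if_neg (fun h => h.2 h1)]
              ring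
            · rw [hya Q h1, hnb Q h2, if_pos ⟨h1, h2⟩, if_neg (fun h => h2 h.1)]
              ring
          · by_cases h2 : b ∈ Q
            · rw [hna Q h1, hyb Q h2, if_neg (fun h => h1 h.1), if_pos ⟨h2, h1⟩]
              ring
            · rw [hna Q h1, hnb Q h2, if_neg (fun h => h1 h.1), if_neg (fun h => h2 h.1)]
              ring
        have e5 : ∑ Q ∈ (powersetCard (k + 2) F).filter (fun Q => a ∈ Q ∧ b ∉ Q),
              (-2 * (-1 : K) ^ (T ∩ Q).card) * f Q =
            ∑ Q ∈ powersetCard (k + 1) F', (-2 * (-1 : K) ^ (T ∩ Q).card) * f (insert a Q) := by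
          symm
          refine sum_bij (fun Q _ => insert a Q) (fun Q hQ => ?_) (fun Q hQ Q' hQ' hh => ?_)
            (fun Q hQ => ?_) fun Q hQ => ?_
          · rw [mem_powersetCard] at hQ
            obtain ⟨q1, q2, q3⟩ := hsub hQ.1
            rw [mem_filter, mem_powersetCard]
            refine ⟨⟨insert_subset ha q1, by rw [card_insert_of_notMem q2, hQ.2]⟩,
              mem_insert_self _ _, fun hm => ?_⟩
            rcases mem_insert.1 hm with h1 | h1
            · exact hab h1.symm
            · exact q3 h1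
          · rw [mem_powersetCard] at hQ hQ'
            have q1 := (hsub hQ.1).2.1
            have q2 := (hsub hQ'.1).2.1
            rw [← erase_insert q1, ← erase_insert q2, hh]
          · rw [mem_filter, mem_powersetCard] at hQ
            refine ⟨Q.erase a, ?_, insert_erase hQ.2.1⟩
            rw [mem_powersetCard, card_erase_of_mem hQ.2.1, hQ.1.2]
            refine ⟨fun i hi => ?_, rfl⟩
            rw [mem_erase] at hi
            rw [hF', mem_erase, mem_erase]
            exact ⟨fun h => hQ.2.2 (h ▸ hi.2), hi.1, hQ.1.1 hi.2⟩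
          · rw [inter_insert_of_notMem haT]
        have e6 : ∑ Q ∈ (powersetCard (k + 2) F).filter (fun Q => b ∈ Q ∧ a ∉ Q),
              (2 * (-1 : K) ^ (T ∩ Q).card) * f Q =
            ∑ Q ∈ powersetCard (k + 1) F', (2 * (-1 : K) ^ (T ∩ Q).card) * f (insert b Q) := by
          symm
          refine sum_bij (fun Q _ => insert b Q) (fun Q hQ => ?_) (fun Q hQ Q' hQ' hh => ?_)
            (fun Q hQ => ?_) fun Q hQ => ?_
          · rw [mem_powersetCard] at hQ
            obtain ⟨q1, q2, q3⟩ := hsub hQ.1
            rw [mem_filter, mem_powersetCard]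
            refine ⟨⟨insert_subset hb q1, by rw [card_insert_of_notMem q3, hQ.2]⟩,
              mem_insert_self _ _, fun hm => ?_⟩
            rcases mem_insert.1 hm with h1 | h1
            · exact hab h1
            · exact q2 h1
          · rw [mem_powersetCard] at hQ hQ'
            have q1 := (hsub hQ.1).2.2
            have q2 := (hsub hQ'.1).2.2
            rw [← erase_insert q1, ← erase_insert q2, hh]
          · rw [mem_filter, mem_powersetCard] at hQ
            refine ⟨Q.erase b, ?_, insert_erase hQ.2.1⟩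
            rw [mem_powersetCard, card_erase_of_mem hQ.2.1, hQ.1.2]
            refine ⟨fun i hi => ?_, rfl⟩
            rw [mem_erase] at hi
            rw [hF', mem_erase, mem_erase]
            exact ⟨hi.1, fun h => hQ.2.2 (h ▸ hi.2), hQ.1.1 hi.2⟩
          · rw [inter_insert_of_notMem hbT]
        rw [e4, e5, e6, ← sum_add_distrib] at e3
        have e7 : ∑ Q ∈ powersetCard (k + 1) F', (-2 * (-1 : K) ^ (T ∩ Q).card * f (insert a Q) +
            2 * (-1 : K) ^ (T ∩ Q).card * f (insert b Q)) =
            -2 * ∑ Q ∈ powersetCard (k + 1) F', (-1 : K) ^ (T ∩ Q).card *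
              (f (insert a Q) - f (insert b Q)) := by
          rw [mul_sum]
          exact sum_congr rfl fun Q _ => by ring
        rw [e7] at e3
        have e8 : (-2 : K) ≠ 0 := neg_ne_zero.2 two_ne_zero
        exact (mul_eq_zero.1 e3).resolve_left e8
      · rw [mem_powersetCard]
        refine ⟨fun i hi => ?_, hc⟩
        rw [hF', mem_erase, mem_erase]
        exact ⟨fun h => hbR (h ▸ hi), fun h => haR (h ▸ hi), hR hi⟩
    intro R hR
    have h1 := h R hR
    have h2 : ∑ Q ∈ powersetCard (k + 2) F, (-1 : K) ^ (R ∩ Q).card * f Q =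
        (∑ Q ∈ powersetCard (k + 2) F, (-1 : K) ^ (R ∩ Q).card) * f R := by
      rw [sum_mul]
      exact sum_congr rfl fun Q hQ => by rw [hconst Q hQ R hR]
    have h3 : ∑ Q ∈ powersetCard (k + 2) F, (-1 : K) ^ (R ∩ Q).card * f Q = 0 := h1
    rw [h2] at h3
    rw [mem_powersetCard] at hR
    exact (mul_eq_zero.1 h3).resolve_left (row_ne hF hR.1 hR.2)

end Pool.Agent.H433.HG
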