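import Pool.Agent.H433.HG.Def
import Pool.Agent.H433.GT.Loc
import Mathlib.LinearAlgebra.Lagrange

/-!
The coordinates of the double of a point, at a simple place.
-/

set_option autoImplicit false

open Finset

namespace Pool.Agent.H433.HG

open Pool.Agent.H433.AC Pool.Agent.H433.GT

variable {g : ℕ}

theorem mem_Sp {S : Finset (Fin (2 * g + 1))} : S ∈ Sp g ↔ S.card = g + 1 := by
  simp [Sp, mem_powersetCard]

theorem card_co {S : Finset (Fin (2 * g + 1))} (hS : S.card = g + 1) : Sᶜ.card = g := by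
  rw [card_compl, Fintype.card_fin, hS]
  omega

theorem card_co' {S : Finset (Fin (2 * g + 1))} (hS : S.card = g) : Sᶜ.card = g + 1 := by
  rw [card_compl, Fintype.card_fin, hS]
  omega

theorem insert_mem {T : Finset (Fin (2 * g + 1))} (hT : T.card = g) {i : Fin (2 * g + 1)}
    (hi : i ∉ T) : insert i T ∈ Sp g := by
  rw [mem_Sp, card_insert_of_notMem hi, hT]

variable {K : Type} [Field K]

/-- the coefficients of the linear relations -/
def cf (a : Fin (2 * g + 1) → K) (U : Finset (Fin (2 * g + 1))) (i : Fin (2 * g + 1)) : K :=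
  (∏ j ∈ Uᶜ, (a i - a j)) / (∏ j ∈ U.erase i, (a i - a j))

theorem sum_cf {a : Fin (2 * g + 1) → K} (ha : Function.Injective a)
    {U : Finset (Fin (2 * g + 1))} (hU : U.card = g + 1) : ∑ i ∈ U, cf a U i = 1 := by
  have h1 := Lagrange.leadingCoeff_eq_sum (s := U) (v := a) (ha.injOn)
    (P := ∏ j ∈ Uᶜ, (Polynomial.X - Polynomial.C (a j))) (by
      rw [Polynomial.degree_prod]
      simp only [Polynomial.degree_X_sub_C, sum_const, card_co hU, hU]
      rw [nsmul_eq_mul, mul_one]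
      push_cast
      rfl)
  rw [Polynomial.leadingCoeff_prod] at h1
  simp only [Polynomial.leadingCoeff_X_sub_C, prod_const_one, Polynomial.eval_prod,
    Polynomial.eval_sub, Polynomial.eval_X, Polynomial.eval_C] at h1
  rw [h1]
  rfl

variable {Γ : Type*} [LinearOrderedCommGroupWithZero Γ] {w : Valuation K Γ}

theorem prod_one {s : Finset (Fin (2 * g + 1))} {f : Fin (2 * g + 1) → K}
    (h : ∀ j ∈ s, w (f j) = 1) : w (∏ j ∈ s, f j) = 1 := by
  rw [map_prod]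
  exact prod_eq_one h

section

variable {a : Fin (2 * g + 1) → K} {i₀ j₀ : Fin (2 * g + 1)}

theorem cf_one (hn : ∀ i j, i ≠ j → ¬ (i = i₀ ∧ j = j₀) → ¬ (i = j₀ ∧ j = i₀) →
    w (a i - a j) = 1) {U : Finset (Fin (2 * g + 1))} {i : Fin (2 * g + 1)} (hiU : i ∈ U)
    (h1 : i ≠ i₀) (h2 : i ≠ j₀) : w (cf a U i) = 1 := by
  unfold cf
  rw [map_div₀, prod_one, prod_one, div_one]
  · intro j hj
    refine hn i j (fun h => ?_) (fun h => h1 h.1) fun h => h2 h.1
    rw [← h] at hj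
    exact (mem_erase.1 hj).1 rfl
  · intro j hj
    refine hn i j (fun h => ?_) (fun h => h1 h.1) fun h => h2 h.1
    rw [← h] at hj
    exact (mem_compl.1 hj) hiU

theorem cf_i (hn : ∀ i j, i ≠ j → ¬ (i = i₀ ∧ j = j₀) → ¬ (i = j₀ ∧ j = i₀) →
    w (a i - a j) = 1) (hij : i₀ ≠ j₀) {U : Finset (Fin (2 * g + 1))} (hi : i₀ ∈ U)
    (hj : j₀ ∉ U) : w (cf a U i₀) = w (a i₀ - a j₀) := by
  unfold cf
  have h1 : j₀ ∈ Uᶜ := mem_compl.2 hj
  rw [map_div₀, ← mul_prod_erase _ _ h1, map_mul, prod_one, prod_one, div_one, mul_one]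
  · intro j hj'
    refine hn i₀ j (fun h => ?_) (fun h => ?_) fun h => hij h.1
    · rw [← h] at hj'
      exact (mem_erase.1 hj').1 rfl
    · rw [h.2] at hj'
      exact hj (mem_erase.1 hj').2
  · intro j hj'
    refine hn i₀ j (fun h => ?_) (fun h => ?_) fun h => hij h.1
    · rw [← h] at hj'
      exact (mem_compl.1 (mem_erase.1 hj').2) hi
    · rw [h.2] at hj'
      exact (mem_erase.1 hj').1 rfl

theorem cf_ij (hn : ∀ i j, i ≠ j → ¬ (i = i₀ ∧ j = j₀) → ¬ (i = j₀ ∧ j = i₀) →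
    w (a i - a j) = 1) (hij : i₀ ≠ j₀) {U : Finset (Fin (2 * g + 1))} (hi : i₀ ∈ U)
    (hj : j₀ ∈ U) : w (cf a U i₀) = (w (a i₀ - a j₀))⁻¹ := by
  unfold cf
  have h1 : j₀ ∈ U.erase i₀ := mem_erase.2 ⟨hij.symm, hj⟩
  rw [map_div₀, ← mul_prod_erase _ _ h1, map_mul, prod_one, prod_one, mul_one, one_div]
  · intro j hj'
    refine hn i₀ j (fun h => ?_) (fun h => ?_) fun h => hij h.1
    · rw [← h] at hj'
      exact (mem_erase.1 (mem_erase.1 hj').2).1 rfl
    · rw [h.2] at hj'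
      exact (mem_erase.1 hj').1 rfl
  · intro j hj'
    refine hn i₀ j (fun h => ?_) (fun h => ?_) fun h => hij h.1
    · rw [← h] at hj'
      exact (mem_compl.1 hj') hi
    · rw [h.2] at hj'
      exact (mem_compl.1 hj') hj

theorem sq_le {t z z₀ : K} {p r : Γ} (hd : ∀ x : K, w x < 1 → w x ≤ p)
    (hr : r ≠ 0) (hz : ∃ q, z = t * q ^ 2) (hz₀ : ∃ q, z₀ = t * q ^ 2) (h : w z < r)
    (h₀ : w z₀ = r) : w z ≤ p * (p * r) := by
  obtain ⟨q, rfl⟩ := hz
  obtain ⟨q₀, rfl⟩ := hz₀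
  have hn : w (t * q₀ ^ 2) ≠ 0 := by rwa [h₀]
  have hn' : t * q₀ ^ 2 ≠ 0 := by rwa [Ne, map_eq_zero] at hn
  have hq₀ : q₀ ≠ 0 := fun h => hn' (by rw [h]; ring)
  have e1 : t * q ^ 2 = (q / q₀) ^ 2 * (t * q₀ ^ 2) := by
    field_simp
  have h1 : w (q / q₀) < 1 := by
    by_contra hcon
    rw [not_lt] at hcon
    rw [e1, map_mul, h₀, map_pow] at h
    have h2 : 1 ≤ w (q / q₀) ^ 2 := one_le_pow_of_one_le' hcon 2
    exact absurd h (not_lt.2 (le_mul_of_one_le_left' h2))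
  have h2 := hd _ h1
  rw [e1, map_mul, h₀, map_pow, pow_two, mul_assoc]
  exact mul_le_mul' h2 (mul_le_mul_left h2 r)

/-- At a simple place one of the coordinates which separate the two points is not smaller than the
other coordinates. -/
theorem loc_I {x : Finset (Fin (2 * g + 1)) → K} {t : K} {r : Γ} (hx : Linear a x)
    (hn : ∀ i j, i ≠ j → ¬ (i = i₀ ∧ j = j₀) → ¬ (i = j₀ ∧ j = i₀) → w (a i - a j) = 1)
    (hij : i₀ ≠ j₀) (hu0 : w (a i₀ - a j₀) ≠ 0) (hu1 : w (a i₀ - a j₀) < 1)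
    (hd : ∀ z : K, w z < 1 → w z ≤ w (a i₀ - a j₀))
    (hsq : ∀ S ∈ Sp g, ∃ q, x S = t * q ^ 2) (hr : r ≠ 0) {S₀ : Finset (Fin (2 * g + 1))}
    (hS₀ : S₀ ∈ Sp g) (hx0 : w (x S₀) = r) :
    ∃ S ∈ Sp g, ¬ (i₀ ∈ S ↔ j₀ ∈ S) ∧ r ≤ w (x S) := by
  by_contra hcon'
  have hcon : ∀ S ∈ Sp g, ¬ (i₀ ∈ S ↔ j₀ ∈ S) → w (x S) < r :=
    fun S hS hs => not_le.1 fun h => hcon' ⟨S, hS, hs, h⟩
  set u := w (a i₀ - a j₀) with hu
  have hu0' : 0 < u := zero_lt_iff.2 hu0
  have hur : u * r < r := by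
    have := (mul_lt_mul_iff_of_pos_right (zero_lt_iff.2 hr)).2 hu1
    rwa [one_mul] at this
  have h1 (S : Finset (Fin (2 * g + 1))) (hS : S ∈ Sp g) (hs : ¬ (i₀ ∈ S ↔ j₀ ∈ S)) :
      w (x S) ≤ u * (u * r) :=
    sq_le hd hr (hsq S hS) (hsq S₀ hS₀) (hcon S hS hs) hx0
  have hA (S : Finset (Fin (2 * g + 1))) (hS : S ∈ Sp g) (hi : i₀ ∈ S) (hj : j₀ ∈ S) :
      w (x S) ≤ u * r := by
    have hiS : i₀ ∉ Sᶜ := fun h => (mem_compl.1 h) hi
    have hjS : j₀ ∉ Sᶜ := fun h => (mem_compl.1 h) hj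
    have hc := card_co (mem_Sp.1 hS)
    set U := insert i₀ Sᶜ with hUd
    have hU : U ∈ Sp g := insert_mem hc hiS
    have hUc : Uᶜ = S.erase i₀ := by
      rw [hUd, compl_insert, compl_compl]
    have hiU : i₀ ∈ U := mem_insert_self _ _
    have hjU : j₀ ∉ U := by
      rw [hUd, mem_insert, not_or]
      exact ⟨hij.symm, hjS⟩
    have h2 := hx U hU
    rw [hUd, sum_insert hiS, ← hUd, hUc, insert_erase hi, ← hUc] at h2
    have h3 : cf a U i₀ * x S = x U - ∑ i ∈ Sᶜ, cf a U i * x (insert i (S.erase i₀)) := by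
      rw [h2]
      unfold cf
      rw [← hUc]
      ring
    have h4 : w (∑ i ∈ Sᶜ, cf a U i * x (insert i (S.erase i₀))) ≤ u * (u * r) := by
      refine w.map_sum_le fun i hi' => ?_
      have hiS' : i ∉ S := mem_compl.1 hi'
      have hii : i ≠ i₀ := fun h => hiS' (h ▸ hi)
      have hijj : i ≠ j₀ := fun h => hiS' (h ▸ hj)
      rw [map_mul, cf_one hn (mem_insert_of_mem hi') hii hijj, one_mul]
      refine h1 _ ?_ ?_
      · refine insert_mem ?_ ?_
        · rw [card_erase_of_mem hi, mem_Sp.1 hS]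
          rfl
        · exact fun h => hiS' (mem_erase.1 h).2
      · intro h
        have h5 : j₀ ∈ insert i (S.erase i₀) :=
          mem_insert_of_mem (mem_erase.2 ⟨hij.symm, hj⟩)
        have h6 := h.2 h5
        rw [mem_insert, mem_erase] at h6
        rcases h6 with h6 | h6
        · exact hii h6.symm
        · exact h6.1 rfl
    have h5 : w (x U) ≤ u * (u * r) := h1 U hU fun h => hjU (h.1 hiU)
    have h6 : w (cf a U i₀ * x S) ≤ u * (u * r) := by
      rw [h3]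
      exact w.map_sub_le h5 h4
    rw [map_mul, cf_i hn hij hiU hjU] at h6
    exact le_of_mul_le_mul_left h6 hu0'
  have hB (U : Finset (Fin (2 * g + 1))) (hU : U ∈ Sp g) (hi : i₀ ∉ U) (hj : j₀ ∉ U) :
      w (x U) ≤ u * r := by
    rw [hx U hU]
    refine w.map_sum_le fun i hi' => ?_
    have hii : i ≠ i₀ := fun h => hi (h ▸ hi')
    have hijj : i ≠ j₀ := fun h => hj (h ▸ hi')
    have h2 := cf_one hn hi' hii hijj
    unfold cf at h2
    rw [map_mul, h2, one_mul]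
    refine hA _ (insert_mem (card_co (mem_Sp.1 hU)) fun h => (mem_compl.1 h) hi') ?_ ?_
    · exact mem_insert_of_mem (mem_compl.2 hi)
    · exact mem_insert_of_mem (mem_compl.2 hj)
  have hlt : w (x S₀) ≤ u * r := by
    by_cases hi : i₀ ∈ S₀
    · by_cases hj : j₀ ∈ S₀
      · exact hA _ hS₀ hi hj
      · refine (h1 _ hS₀ fun h => hj (h.1 hi)).trans ?_
        exact mul_le_mul_right hur.le _
    · by_cases hj : j₀ ∈ S₀
      · refine (h1 _ hS₀ fun h => hi (h.2 hj)).trans ?_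
        exact mul_le_mul_right hur.le _
      · exact hB _ hS₀ hi hj
  rw [hx0] at hlt
  exact absurd hur (not_lt.2 hlt)

/-- the difference of two coordinates, at a simple place -/
theorem loc_II {x : Finset (Fin (2 * g + 1)) → K} (hx : Linear a x)
    (ha : Function.Injective a)
    (hn : ∀ i j, i ≠ j → ¬ (i = i₀ ∧ j = j₀) → ¬ (i = j₀ ∧ j = i₀) → w (a i - a j) = 1)
    (hij : i₀ ≠ j₀) {T : Finset (Fin (2 * g + 1))} (hT : T.card = g) (hi : i₀ ∉ T) (hj : j₀ ∉ T)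
    {b : Γ} (hb : ∀ S ∈ Sp g, ∀ S' ∈ Sp g, w (x S - x S') ≤ b) :
    w (x (insert i₀ T) - x (insert j₀ T)) ≤ w (a i₀ - a j₀) * b := by
  have hu0 : w (a i₀ - a j₀) ≠ 0 := by
    rw [Ne, map_eq_zero, sub_eq_zero]
    exact fun h => hij (ha h)
  set U := Tᶜ with hUd
  have hU : U ∈ Sp g := mem_Sp.2 (card_co' hT)
  have hUc : Uᶜ = T := compl_compl _
  have hiU : i₀ ∈ U := mem_compl.2 hi
  have hjU : j₀ ∈ U := mem_compl.2 hj
  set c := x (insert j₀ T) with hc
  have hcS := insert_mem hT hj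
  have h1 : x U - c = ∑ i ∈ U, cf a U i * (x (insert i T) - c) := by
    have h2 := hx U hU
    rw [hUc] at h2
    have h3 := sum_cf ha (mem_Sp.1 hU)
    have h4 : ∑ i ∈ U, cf a U i * (x (insert i T) - c) =
        (∑ i ∈ U, cf a U i * x (insert i T)) - (∑ i ∈ U, cf a U i) * c := by
      rw [sum_mul, ← sum_sub_distrib]
      exact sum_congr rfl fun i _ => by ring
    rw [h4, h3, one_mul, h2]
    congr 1
    refine sum_congr rfl fun i _ => ?_
    unfold cf
    rw [hUc]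
  rw [← add_sum_erase _ _ hiU] at h1
  have h5 : cf a U i₀ * (x (insert i₀ T) - c) =
      (x U - c) - ∑ i ∈ U.erase i₀, cf a U i * (x (insert i T) - c) := by
    rw [h1]
    ring
  have h6 : w (∑ i ∈ U.erase i₀, cf a U i * (x (insert i T) - c)) ≤ b := by
    refine w.map_sum_le fun i hi' => ?_
    obtain ⟨hii, hiU'⟩ := mem_erase.1 hi'
    rcases eq_or_ne i j₀ with rfl | hijj
    · rw [← hc, sub_self, mul_zero, map_zero]
      exact zero_le
    · rw [map_mul, cf_one hn hiU' hii hijj, one_mul]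
      exact hb _ (insert_mem hT (mem_compl.1 hiU')) _ hcS
  have h7 : w (cf a U i₀ * (x (insert i₀ T) - c)) ≤ b := by
    rw [h5]
    exact w.map_sub_le (hb _ hU _ hcS) h6
  rw [map_mul, cf_ij hn hij hiU hjU] at h7
  rwa [inv_mul_le_iff₀ (zero_lt_iff.2 hu0)] at h7

end

end Pool.Agent.H433.HG
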