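import Pool.Agent.H433.HG.Ext
import Pool.Agent.H433.AC.Exc

/-!
The inequality of Lang and Silverman for almost all hyperelliptic Jacobians with rational
Weierstrass points.
-/

set_option autoImplicit false
set_option linter.unusedSectionVars false

open NumberField IsDedekindDomain Finset Filter Topology

namespace Pool.Agent.H433.HG

open Pool.Agent.H433.AC

variable {g : ℕ} {K : Type} [Field K] [NumberField K]

theorem ex_le {Y R : ℝ} (hY : 1 ≤ Y) (hR : 0 ≤ R) {a : Fin (2 * g + 1) → 𝓞 K}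
    (ha : ¬ Exceptional Y R a) (h : Dif a) :
    ex h ≤ (prs (2 * g + 1)).card * (3 + (prs (2 * g + 1)).card) * Real.log Y := by
  have h0 : Real.log (Nm ((1 : ℕ) : 𝓞 K)) = 0 := by
    unfold Nm
    rw [Nat.cast_one, Ideal.span_singleton_one, Ideal.absNorm_top]
    simp
  have h1 : ex h ≤ ∑ _p ∈ prs (2 * g + 1), (3 + ((prs (2 * g + 1)).card : ℝ)) * Real.log Y := by
    unfold ex
    refine sum_le_sum fun p hp => ?_
    have h2 := le_Lp (m := 1) le_rfl hY hR ha h hp
    rw [h0] at h2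
    linarith
  rw [sum_const, nsmul_eq_mul] at h1
  linarith

theorem length_le {l : List (Fin (2 * g + 1) × Fin (2 * g + 1))} {B : Finset (Fin (2 * g + 1))}
    (hB : Apart l B) : l.length ≤ g + 1 := by
  have := hB.2.2
  omega

/-- the lower bound over the extension -/
theorem low_ext {a : Fin (2 * g + 1) → 𝓞 K} (h : Dif a) {L : Type} [Field L] [NumberField L]
    [Algebra K L] {R M : ℝ} (hR : 0 < R)
    (hwl : ∀ w : InfinitePlace K, ∀ q ∈ prs (2 * g + 1), R ≤ w ((a q.1 - a q.2 : 𝓞 K) : K))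
    (hwu : ∀ w : InfinitePlace K, ∀ q ∈ prs (2 * g + 1), w ((a q.1 - a q.2 : 𝓞 K) : K) ≤ M)
    {X : ℕ → Finset (Fin (2 * g + 1)) → L} (hX : Orbit (fun i => algebraMap K L (a i)) X)
    {l : List (Fin (2 * g + 1) × Fin (2 * g + 1))} {B : Finset (Fin (2 * g + 1))} (hl : l ≠ [])
    (hB : Apart l B) (hd : dl (X 1) l B ≠ 0)
    {S₁ : Finset (HeightOneSpectrum (𝓞 L))} (hS₁ : ∀ v ∈ S₁, Zero (X 1) v) :
    Module.finrank K L * ((g ^ 2 + 2 * l.length) * (Module.finrank ℚ K * Real.log R) -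
      l.length * (Module.finrank ℚ K * Real.log 4) - 3 * ex h -
      g ^ 2 * (Module.finrank ℚ K * Real.log M) - 2 * (Module.finrank ℚ K * cg g)) +
      2 * ∑ v ∈ S₁, Real.log (nv v) - 2 * ld K L ≤ 8 * hhat X := by
  have hco : (fun i => algebraMap K L (a i)) = fun i => ((up L a i : 𝓞 L) : L) := by
    funext i
    exact (alg_co (a i)).symm
  rw [hco] at hX
  have hL := up_dif (L := L) h
  have e1 := al_low_gen (K := L) hL hR (fun w q hq => by
    rw [place_up]
    exact hwl _ q hq) (y := X 1) (t := (hX 0).2.2.choose) (fun S hS => by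
      obtain ⟨q, -, -, hq⟩ := (hX 0).2.2.choose_spec
      exact ⟨q S, hq S hS⟩) (hX 1).2.1 hl hB hd hS₁
  have e2 := hm_up (K := L) hL (M := M) fun w q hq => by
    rw [place_up]
    exact hwu _ q hq
  have e3 := (hhat_spec (inj_of hL.inj) hX).2
  have e4 := exs_smp (L := L) h
  have e4' := exs_sng (L := L) h
  have e5 : hm (up L a) = ht fun S => (rs (fun i => ((up L a i : 𝓞 L) : L)) S)⁻¹ := rfl
  rw [e5] at e2
  have e6 : (Module.finrank ℚ L : ℝ) = Module.finrank K L * Module.finrank ℚ K := by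
    rw [mul_comm]
    exact_mod_cast (Module.finrank_mul_finrank ℚ K L).symm
  rw [NumberField.totalWeight_eq_finrank] at e3
  rw [e6] at e1 e2 e3
  have e7 : Module.finrank K L * ((g ^ 2 + 2 * l.length) * (Module.finrank ℚ K * Real.log R) -
      l.length * (Module.finrank ℚ K * Real.log 4) - 3 * ex h -
      g ^ 2 * (Module.finrank ℚ K * Real.log M) - 2 * (Module.finrank ℚ K * cg g)) =
      (g ^ 2 + 2 * l.length) * (Module.finrank K L * Module.finrank ℚ K * Real.log R) -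
      l.length * (Module.finrank K L * Module.finrank ℚ K * Real.log 4) -
      3 * (Module.finrank K L * ex h) -
      g ^ 2 * (Module.finrank K L * Module.finrank ℚ K * Real.log M) -
      2 * (Module.finrank K L * Module.finrank ℚ K * cg g) := by ring
  rw [e7]
  linarith

/-- the constant in the choice of the parameters -/
noncomputable def cc (g : ℕ) : ℝ :=
  g ^ 2 + 2 * (g + 1) + 3 * ((prs (2 * g + 1)).card * (3 + (prs (2 * g + 1)).card)) + 1

theorem one_le_cc (g : ℕ) : 1 ≤ cc g := by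
  unfold cc
  have h1 : (0 : ℝ) ≤ g := Nat.cast_nonneg _
  have h2 : (0 : ℝ) ≤ (prs (2 * g + 1)).card := Nat.cast_nonneg _
  have h3 : (0 : ℝ) ≤ (prs (2 * g + 1)).card * (3 + (prs (2 * g + 1)).card : ℝ) := by positivity
  nlinarith [sq_nonneg (g : ℝ)]

theorem good (hg : 1 ≤ g) (K : Type) [Field K] [NumberField K] {ε ε₁ κ : ℝ} (hε₁ : 0 < ε₁)
    (hεε : ε₁ ≤ ε) (hε2 : ε₁ ≤ 1 / (4 * g ^ 2)) (hκ : κ = ε₁ / (2 * cc g)) :
    ∃ L₀ : ℝ, 0 ≤ L₀ ∧ ∀ H : ℕ, 1 ≤ H → L₀ ≤ Module.finrank ℚ K * Real.log H →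
    ∀ a : Fin (2 * g + 1) → 𝓞 K, (∀ l, a l ∈ box K H) →
      ¬ Exceptional ((H : ℝ) ^ κ) ((H : ℝ) ^ (1 - κ)) a → LangSilverman ε H a := by
  obtain ⟨C₀, hC₀, hsz⟩ := box_size K
  have hgR : (1 : ℝ) ≤ g := by exact_mod_cast hg
  have hg2 : (1 : ℝ) ≤ (g : ℝ) ^ 2 := one_le_pow₀ hgR
  have hg3 : (g : ℝ) + 1 ≤ 2 * (g : ℝ) ^ 2 := by nlinarith
  set d := Module.finrank ℚ K with hd
  have hd1 : 1 ≤ d := Module.finrank_pos
  have hdR : (1 : ℝ) ≤ d := by exact_mod_cast hd1
  set D₂ : ℝ := g ^ 2 * (d * Real.log (2 * C₀)) with hD₂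
  have hD₂0 : 0 ≤ D₂ := by
    have := Real.log_nonneg (show (1 : ℝ) ≤ 2 * C₀ by linarith)
    positivity
  set D₁ : ℝ := (g + 1) * (d * Real.log 4) + 2 * (d * cg g) with hD₁
  have hD₁0 : 0 ≤ D₁ := by
    have := Real.log_nonneg (show (1 : ℝ) ≤ 4 by norm_num)
    have := cg_nonneg g
    positivity
  have hcc := one_le_cc g
  refine ⟨2 * (D₁ + D₂) / ε₁, by positivity, fun H hH hL a haB ha => ?_⟩
  have hHR : (1 : ℝ) ≤ H := by exact_mod_cast hH
  have hH0 : (0 : ℝ) < H := by linarith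
  set l := Real.log H with hl
  have hl0 : 0 ≤ l := Real.log_nonneg hHR
  set Lk := (d : ℝ) * l with hLd
  have hL0 : 0 ≤ Lk := by positivity
  have hlL : l ≤ Lk := le_mul_of_one_le_left hl0 hdR
  rw [div_le_iff₀ hε₁] at hL
  have hκ0 : 0 < κ := by
    rw [hκ]
    positivity
  have hκcc : κ * cc g = ε₁ / 2 := by
    rw [hκ]
    field_simp
  have hε4 : ε₁ ≤ 1 / 4 := by
    refine hε2.trans ?_
    rw [div_le_div_iff₀ (by positivity) (by norm_num)]
    linarith
  have hκ1 : κ ≤ 1 / 8 := by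
    have : κ ≤ κ * cc g := le_mul_of_one_le_right hκ0.le hcc
    linarith
  set Y : ℝ := (H : ℝ) ^ κ with hY
  set R : ℝ := (H : ℝ) ^ (1 - κ) with hR
  have hY1 : 1 ≤ Y := Real.one_le_rpow hHR hκ0.le
  have hR1 : 1 ≤ R := Real.one_le_rpow hHR (by linarith)
  have hR0 : 0 < R := by linarith
  have hlY : Real.log Y = κ * l := by rw [hY, Real.log_rpow hH0]
  have hlR : Real.log R = (1 - κ) * l := by rw [hR, Real.log_rpow hH0]
  have hDif : Dif a := fun p hp => exceptional_ne hR0.le ha hp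
  have hwl (w : InfinitePlace K) (q : Fin (2 * g + 1) × Fin (2 * g + 1))
      (hq : q ∈ prs (2 * g + 1)) : R ≤ w ((a q.1 - a q.2 : 𝓞 K) : K) := by
    by_contra hcon
    rw [not_le] at hcon
    refine ha (Or.inl ⟨q, hq, w.embedding, ?_⟩)
    rw [InfinitePlace.norm_embedding_eq]
    exact hcon.le
  have hwu (w : InfinitePlace K) (q : Fin (2 * g + 1) × Fin (2 * g + 1))
      (hq : q ∈ prs (2 * g + 1)) : w ((a q.1 - a q.2 : 𝓞 K) : K) ≤ 2 * C₀ * H := by
    rw [← InfinitePlace.norm_embedding_eq]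
    have h1 := hsz H _ (haB q.1) w.embedding
    have h2 := hsz H _ (haB q.2) w.embedding
    push_cast
    rw [map_sub]
    refine (norm_sub_le _ _).trans ?_
    linarith
  set c : ℝ := ((prs (2 * g + 1)).card : ℝ) with hc
  have hc0 : 0 ≤ c := Nat.cast_nonneg _
  set e := c * (3 + c) with he
  have he0 : 0 ≤ e := by positivity
  have hκL : 0 ≤ κ * Lk := by positivity
  have hex : ex hDif ≤ e * (κ * Lk) := by
    have h1 := ex_le hY1 hR0.le ha hDif
    rw [hlY] at h1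
    have h2 : κ * l ≤ κ * Lk := mul_le_mul_of_nonneg_left hlL hκ0.le
    exact h1.trans (mul_le_mul_of_nonneg_left h2 he0)
  have hlM : d * Real.log (2 * C₀ * H) = Lk + d * Real.log (2 * C₀) := by
    rw [Real.log_mul (by positivity) (by positivity), hLd, hl]
    ring
  have hup : hm a ≤ g ^ 2 * Lk + D₂ := by
    have h1 := hm_up hDif (M := 2 * C₀ * H) hwu
    rw [hlM] at h1
    rw [hD₂]
    linarith
  have hdl : (d : ℝ) * Real.log R = Lk - κ * Lk := by
    rw [hlR, hLd]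
    ring
  have hccL : cc g * (κ * Lk) = ε₁ / 2 * Lk := by
    rw [← hκcc]
    ring
  have hcce : cc g = g ^ 2 + 2 * (g + 1) + 3 * e + 1 := rfl
  have hlow : g ^ 2 * Lk - ε₁ * Lk ≤ hm a := by
    have h1 := hm_low hg hDif hR0 hwl
    rw [hdl] at h1
    have h2 : 0 ≤ (2 * (g + 1) + 2 * e + 1) * (κ * Lk) := by positivity
    have h3 : 0 ≤ ε₁ * Lk := by positivity
    rw [hcce] at hccL
    nlinarith
  have hεL : ε₁ * Lk ≤ ε * Lk := mul_le_mul_of_nonneg_right hεε hL0
  have hm0 : 0 ≤ hm a := Height.logHeight_nonneg _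
  have hεL0 : 0 ≤ ε₁ * Lk := by positivity
  refine ⟨hDif.inj, ?_, fun L _ _ _ X hX => ?_⟩
  · rw [abs_le]
    constructor <;> linarith
  have hco : (fun i => algebraMap K L (a i)) = fun i => ((up L a i : 𝓞 L) : L) := by
    funext i
    exact (alg_co (a i)).symm
  refine ⟨?_, ?_⟩
  · rw [hco] at hX
    exact (hhat_spec (inj_of (up_dif (L := L) hDif).inj) hX).1
  by_cases hO : Origin (X 1)
  · exact Or.inl hO
  refine Or.inr fun S hS => ?_
  set m : ℝ := (Module.finrank K L : ℝ) with hmd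
  have hm1 : 0 ≤ m := Nat.cast_nonneg _
  set T₁ := ∑ v ∈ S, Real.log (nv v) with hT
  have key (l : List (Fin (2 * g + 1) × Fin (2 * g + 1))) (B : Finset (Fin (2 * g + 1)))
      (hl : l ≠ []) (hB : Apart l B) (hdl' : dl (X 1) l B ≠ 0) :
      m * ((l.length / (4 * g ^ 2) - ε) * hm a) + 1 / 4 * T₁ - 1 / 4 * ld K L ≤ hhat X := by
    have h1 := low_ext hDif hR0 hwl hwu hX hl hB hdl' hS
    have hk : (l.length : ℝ) ≤ g + 1 := by exact_mod_cast length_le hB
    have hk1 : (1 : ℝ) ≤ l.length := by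
      have : 1 ≤ l.length := List.length_pos_iff.2 hl
      exact_mod_cast this
    set k : ℝ := (l.length : ℝ) with hkd
    rw [← hd, hdl, hlM] at h1
    have hk4 : k / (4 * g ^ 2) ≤ 1 / 2 := by
      rw [div_le_div_iff₀ (by positivity) (by norm_num)]
      linarith
    have hk5 : 1 / (4 * (g : ℝ) ^ 2) ≤ k / (4 * g ^ 2) := by gcongr
    have hk6 : 0 ≤ k / (4 * (g : ℝ) ^ 2) - ε₁ := by linarith
    have h2 : (k / (4 * g ^ 2) - ε) * hm a ≤
        k / 4 * Lk - ε₁ * Lk + 1 / 2 * D₂ := by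
      have e1 : (k / (4 * g ^ 2) - ε) * hm a ≤
          (k / (4 * g ^ 2) - ε₁) * hm a :=
        mul_le_mul_of_nonneg_right (by linarith) hm0
      have e2 : (k / (4 * g ^ 2) - ε₁) * hm a ≤
          (k / (4 * g ^ 2) - ε₁) * (g ^ 2 * Lk + D₂) :=
        mul_le_mul_of_nonneg_left hup hk6
      have e3 : (k / (4 * (g : ℝ) ^ 2) - ε₁) * (g ^ 2 * Lk + D₂) =
          k / 4 * Lk - g ^ 2 * (ε₁ * Lk) + (k / (4 * g ^ 2) - ε₁) * D₂ := by
        field_simp
      have e4 : (k / (4 * (g : ℝ) ^ 2) - ε₁) * D₂ ≤ 1 / 2 * D₂ :=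
        mul_le_mul_of_nonneg_right (by linarith) hD₂0
      have e5 : ε₁ * Lk ≤ g ^ 2 * (ε₁ * Lk) := le_mul_of_one_le_left hεL0 hg2
      linarith
    have h3 : 8 * (k / 4 * Lk - ε₁ * Lk + 1 / 2 * D₂) ≤
        (g ^ 2 + 2 * k) * (Lk - κ * Lk) - k * (d * Real.log 4) - 3 * ex hDif -
        g ^ 2 * (Lk + d * Real.log (2 * C₀)) - 2 * (d * cg g) := by
      have e1 : k * (d * Real.log 4) ≤ (g + 1) * (d * Real.log 4) := by
        have := Real.log_nonneg (show (1 : ℝ) ≤ 4 by norm_num)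
        exact mul_le_mul_of_nonneg_right hk (by positivity)
      have e2 : (g ^ 2 + 2 * k + 3 * e) * (κ * Lk) ≤ cc g * (κ * Lk) := by
        refine mul_le_mul_of_nonneg_right ?_ hκL
        rw [hcce]
        linarith
      have e3 : g ^ 2 * (Lk + d * Real.log (2 * C₀)) = g ^ 2 * Lk + D₂ := by
        rw [hD₂]
        ring
      rw [e3]
      have e4 : (g ^ 2 + 2 * k) * (Lk - κ * Lk) =
          g ^ 2 * Lk + 2 * k * Lk - (g ^ 2 + 2 * k) * (κ * Lk) := by ring
      rw [e4]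
      linarith
    have h4 := mul_le_mul_of_nonneg_left h2 hm1
    have h5 := mul_le_mul_of_nonneg_left h3 hm1
    linarith
  obtain ⟨l₁, B₁, hB₁, hd₁, hl₁⟩ := exists_dl hO
  have hne₁ : l₁ ≠ [] := by
    rintro rfl
    simp at hl₁
  have hfirst := key l₁ B₁ hne₁ hB₁ hd₁
  rw [hl₁, Nat.cast_one] at hfirst
  refine ⟨hfirst, fun l B hB hdl' => ?_⟩
  rcases eq_or_ne l [] with rfl | hl
  · have h1 : m * (((0 : ℝ) / (4 * g ^ 2) - ε) * hm a) ≤
        m * ((1 / (4 * g ^ 2) - ε) * hm a) := by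
      refine mul_le_mul_of_nonneg_left (mul_le_mul_of_nonneg_right ?_ hm0) hm1
      gcongr
      norm_num
    rw [List.length_nil, Nat.cast_zero]
    linarith
  · exact key l B hl hB hdl'

open Classical in
/-- The inequality of Lang and Silverman for almost all hyperelliptic Jacobians of genus `g` with
rational Weierstrass points. -/
theorem main (g : ℕ) (hg : 1 ≤ g) (K : Type) [Field K] [NumberField K] {ε : ℝ} (hε : 0 < ε) :
    ∃ C δ : ℝ, 0 < δ ∧ ∀ H : ℕ, 1 ≤ H →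
      (((Fintype.piFinset fun _ : Fin (2 * g + 1) => box K H).filter fun a =>
        ¬ LangSilverman ε H a).card : ℝ) ≤
          C * (H : ℝ) ^ (-δ) *
            ((Fintype.piFinset fun _ : Fin (2 * g + 1) => box K H).card : ℝ) := by
  have hgR : (1 : ℝ) ≤ g := by exact_mod_cast hg
  set ε₁ : ℝ := min ε (1 / (4 * g ^ 2)) with hε₁
  set κ : ℝ := ε₁ / (2 * cc g) with hκ
  have hcc := one_le_cc g
  have hε₁0 : 0 < ε₁ := lt_min hε (by positivity)
  have hε₁1 : ε₁ ≤ 1 / (4 * g ^ 2) := min_le_right _ _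
  have hκ0 : 0 < κ := by positivity
  have hκ1 : κ ≤ 1 := by
    rw [hκ, div_le_one (by positivity)]
    have h1 : 1 / (4 * (g : ℝ) ^ 2) ≤ 1 := by
      rw [div_le_one (by positivity)]
      nlinarith
    linarith
  obtain ⟨L₀, hL₀, hgood⟩ := good hg K (ε := ε) hε₁0 (min_le_left _ _) hε₁1 hκ
  obtain ⟨C₁, hC₁, hexc⟩ := exceptional_count K (2 * g + 1)
  set d := Module.finrank ℚ K with hd
  have hd1 : 1 ≤ d := Module.finrank_pos
  have hdR : (1 : ℝ) ≤ d := by exact_mod_cast hd1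
  refine ⟨C₁ * 2 + Real.exp L₀, κ, by positivity, fun H hH => ?_⟩
  have hHR : (1 : ℝ) ≤ H := by exact_mod_cast hH
  have hH0 : (0 : ℝ) < H := by linarith
  have hcard : ((Fintype.piFinset fun _ : Fin (2 * g + 1) => box K H).card : ℝ) =
      ((2 * (H : ℝ) + 1) ^ d) ^ (2 * g + 1) := by
    rw [Fintype.card_piFinset]
    simp only [card_box, prod_const, card_univ, Fintype.card_fin]
    push_cast
    rfl
  rcases le_or_gt L₀ (d * Real.log H) with hL | hL
  · set Y : ℝ := (H : ℝ) ^ κ with hY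
    set R : ℝ := (H : ℝ) ^ (1 - κ) with hR
    have hY1 : 1 ≤ Y := Real.one_le_rpow hHR hκ0.le
    have hR1 : 1 ≤ R := Real.one_le_rpow hHR (by linarith)
    have h1 := hexc H hH Y R hY1 hR1
      ((Fintype.piFinset fun _ : Fin (2 * g + 1) => box K H).filter fun a =>
        ¬ LangSilverman ε H a)
      fun a ha => by
        rw [mem_filter, Fintype.mem_piFinset] at ha
        refine ⟨ha.1, ?_⟩
        by_contra hcon
        exact ha.2 (hgood H hH hL a ha.1 hcon)
    refine h1.trans ?_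
    rw [hcard]
    set T : ℝ := (H : ℝ) ^ (-κ) with hT
    have hT0 : 0 < T := by positivity
    have t1 : R / H = T := by
      rw [hR, hT, ← Real.rpow_sub_one hH0.ne']
      congr 1
      ring
    have t2 : 1 / Y = T := by
      rw [hY, hT, Real.rpow_neg hH0.le, one_div]
    rw [t1, t2]
    have e1 : ((H : ℝ) ^ d) ^ (2 * g + 1) ≤ ((2 * (H : ℝ) + 1) ^ d) ^ (2 * g + 1) := by
      gcongr
      linarith
    have e2 := Real.exp_pos L₀
    have e3 : 0 ≤ C₁ := by linarith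
    calc C₁ * ((H : ℝ) ^ d) ^ (2 * g + 1) * (T + T)
        ≤ C₁ * ((2 * (H : ℝ) + 1) ^ d) ^ (2 * g + 1) * (T + T) := by
          gcongr
      _ = C₁ * 2 * T * ((2 * (H : ℝ) + 1) ^ d) ^ (2 * g + 1) := by ring
      _ ≤ (C₁ * 2 + Real.exp L₀) * T * ((2 * (H : ℝ) + 1) ^ d) ^ (2 * g + 1) := by
          gcongr
          linarith
  · have h1 : (((Fintype.piFinset fun _ : Fin (2 * g + 1) => box K H).filter fun a =>
        ¬ LangSilverman ε H a).card : ℝ) ≤
        ((Fintype.piFinset fun _ : Fin (2 * g + 1) => box K H).card : ℝ) := by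
      exact_mod_cast card_filter_le _ _
    refine h1.trans (le_mul_of_one_le_left (Nat.cast_nonneg _) ?_)
    have hl0 : 0 ≤ Real.log H := Real.log_nonneg hHR
    have h2 : Real.log H ≤ L₀ := (le_mul_of_one_le_left hl0 hdR).trans hL.le
    have h3 : (H : ℝ) ^ κ ≤ Real.exp L₀ := by
      rw [Real.rpow_def_of_pos hH0]
      refine Real.exp_le_exp.2 ?_
      nlinarith
    have h4 : (H : ℝ) ^ κ ≤ C₁ * 2 + Real.exp L₀ := by
      have : 0 ≤ C₁ * 2 := by linarith
      linarith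
    rw [Real.rpow_neg hH0.le, ← div_eq_mul_inv, le_div_iff₀ (by positivity), one_mul]
    exact h4

end Pool.Agent.H433.HG
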