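import Pool.Agent.H433.HG.Comb
import Pool.Agent.H433.GT.Low

/-!
Multiplicities of primes in the ideals generated by the coordinates.
-/

set_option autoImplicit false
set_option linter.unusedSectionVars false

open NumberField IsDedekindDomain Finset

namespace Pool.Agent.H433.HG

open Pool.Agent.H433.AC
open Pool.Agent.H433.GT (mi le_mi span_ne le_mi_span log_absNorm mp_mul mp_prod mem_of_mul mem_pow
  lt_pow le_of_simple log_Nm)

variable {g : ℕ} {K : Type} [Field K] [NumberField K]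

/-- the sum of the multiplicities of a prime in the differences -/
noncomputable def mu (a : Fin (2 * g + 1) → 𝓞 K) (v : HeightOneSpectrum (𝓞 K)) : ℕ :=
  ∑ q ∈ prs (2 * g + 1), mp v (a q.1 - a q.2)

theorem W_co (a : Fin (2 * g + 1) → 𝓞 K) (S : Finset (Fin (2 * g + 1))) :
    ((W a S : 𝓞 K) : K) = W (fun i => (a i : K)) S := by
  unfold W
  push_cast
  rfl

theorem Wne {a : Fin (2 * g + 1) → 𝓞 K} (h : Dif a) (S : Finset (Fin (2 * g + 1))) :
    W a S ≠ 0 :=
  prod_ne_zero_iff.2 fun q hq => h q (Gs_sub S hq)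

theorem mp_W_le {a : Fin (2 * g + 1) → 𝓞 K} (h : Dif a) (v : HeightOneSpectrum (𝓞 K))
    (S : Finset (Fin (2 * g + 1))) : mp v (W a S) ≤ mu a v := by
  unfold W mu
  rw [mp_prod _ _ fun q hq => h q (Gs_sub S hq)]
  exact sum_le_sum_of_subset (Gs_sub S)

/-- the general local estimate -/
theorem loc_gen {a : Fin (2 * g + 1) → 𝓞 K} (h : Dif a) {z : Finset (Fin (2 * g + 1)) → 𝓞 K}
    {v : HeightOneSpectrum (𝓞 K)} {m : ℕ} {S : Finset (Fin (2 * g + 1))}
    (hz : z S ∉ v.asIdeal ^ (m + 1)) : W a S * z S ^ 2 ∉ v.asIdeal ^ (2 * m + mu a v + 1) := by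
  have hz0 : z S ≠ 0 := by
    intro h0
    rw [h0] at hz
    exact hz (Ideal.zero_mem _)
  rw [le_mp hz0] at hz
  rw [le_mp (mul_ne_zero (Wne h S) (pow_ne_zero 2 hz0)), mp_mul (Wne h S) (pow_ne_zero 2 hz0),
    pow_two, mp_mul hz0 hz0]
  have := mp_W_le h v S
  omega

theorem dif_co (a : Fin (2 * g + 1) → 𝓞 K) (i j : Fin (2 * g + 1)) :
    ((a i - a j : 𝓞 K) : K) = (a i : K) - (a j : K) := by
  simp

/-- Exactly two points are congruent. -/
def Single (a : Fin (2 * g + 1) → 𝓞 K) (p : Fin (2 * g + 1) × Fin (2 * g + 1))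
    (v : HeightOneSpectrum (𝓞 K)) : Prop :=
  a p.1 - a p.2 ∈ v.asIdeal ∧ ∀ q ∈ prs (2 * g + 1), a q.1 - a q.2 ∈ v.asIdeal → q = p

theorem single_of_simple {a : Fin (2 * g + 1) → 𝓞 K} {p : Fin (2 * g + 1) × Fin (2 * g + 1)}
    {v : HeightOneSpectrum (𝓞 K)} (hs : Simple 1 a p v) : Single a p v := ⟨hs.2.1, hs.2.2.2⟩

/-- the differences are units, up to one -/
theorem single_units {a : Fin (2 * g + 1) → 𝓞 K} {v : HeightOneSpectrum (𝓞 K)}
    {p : Fin (2 * g + 1) × Fin (2 * g + 1)} (hs : Single a p v) (i j : Fin (2 * g + 1))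
    (hij : i ≠ j) (h1 : ¬ (i = p.1 ∧ j = p.2)) (h2 : ¬ (i = p.2 ∧ j = p.1)) :
    v.valuation K ((a i : K) - (a j : K)) = 1 := by
  rcases lt_or_gt_of_ne hij with hlt | hlt
  · rw [← dif_co]
    refine (v.valuation_eq_one_iff_notMem (K := K)).2 fun hm => ?_
    have := hs.2 (i, j) (mem_prs.2 hlt) hm
    exact h1 ⟨by rw [← this], by rw [← this]⟩
  · rw [← Valuation.map_neg, neg_sub, ← dif_co]
    refine (v.valuation_eq_one_iff_notMem (K := K)).2 fun hm => ?_
    have := hs.2 (j, i) (mem_prs.2 hlt) hm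
    exact h2 ⟨by rw [← this], by rw [← this]⟩

/-- the local estimate at a simple place -/
theorem loc_simple {a : Fin (2 * g + 1) → 𝓞 K} (h : Dif a)
    {z : Finset (Fin (2 * g + 1)) → 𝓞 K} {t : K}
    (hL : Linear (fun i => (a i : K)) fun S => (z S : K))
    (hS : ∀ S ∈ Sp g, ∃ q, (z S : K) = t * q ^ 2) {v : HeightOneSpectrum (𝓞 K)}
    {p : Fin (2 * g + 1) × Fin (2 * g + 1)} (hp : p ∈ prs (2 * g + 1)) (hs : Simple 1 a p v)
    {m : ℕ} (hz : ∀ S ∈ Sp g, z S ∈ v.asIdeal ^ m) {S₀ : Finset (Fin (2 * g + 1))}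
    (hS₀ : S₀ ∈ Sp g) (hz' : z S₀ ∉ v.asIdeal ^ (m + 1)) :
    ∃ S ∈ Sp g, W a S * z S ^ 2 ∉ v.asIdeal ^ (2 * m + 1) := by
  have hpd := mem_prs.1 hp
  have hd0 : v.valuation K ((a p.1 : K) - (a p.2 : K)) ≠ 0 := by
    rw [← dif_co, Ne, map_eq_zero]
    have := h p hp
    exact_mod_cast this
  have hd1 : v.valuation K ((a p.1 : K) - (a p.2 : K)) < 1 := by
    rw [← dif_co]
    exact (v.valuation_lt_one_iff_mem (K := K) _).2 hs.2.1
  have hd (x : K) (hx : v.valuation K x < 1) :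
      v.valuation K x ≤ v.valuation K ((a p.1 : K) - (a p.2 : K)) := by
    rw [← dif_co]
    exact le_of_simple hs.2.2.1 hx
  have hr : v.valuation K (z S₀ : K) = WithZero.exp (-(m : ℤ)) := by
    refine le_antisymm ((mem_pow _ _).1 (hz S₀ hS₀)) ?_
    by_contra hlt
    rw [not_le] at hlt
    exact hz' ((lt_pow _ _).2 hlt)
  obtain ⟨S, hSp, hsep, hle⟩ := loc_I (w := v.valuation K) (i₀ := p.1) (j₀ := p.2) hL
    (single_units (single_of_simple hs)) hpd.ne hd0 hd1 hd hS (WithZero.coe_ne_zero) hS₀ hr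
  refine ⟨S, hSp, ?_⟩
  have h1 : W a S ∉ v.asIdeal := by
    unfold W
    intro hm
    obtain ⟨q, hq, hqv⟩ := (Ideal.IsPrime.prod_mem_iff (hp := v.isPrime)).1 hm
    have := hs.2.2.2 q (Gs_sub S hq) hqv
    rw [this] at hq
    exact hsep (mem_filter.1 hq).2
  have h2 : z S ∉ v.asIdeal ^ (m + 1) := by
    rw [lt_pow, not_lt]
    exact hle
  intro hcon
  rcases v.isPrime.mul_mem_pow _ hcon with h3 | h3
  · exact h1 h3
  · rcases eq_or_ne (z S) 0 with h0 | h0
    · rw [h0] at h2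
      exact h2 (Ideal.zero_mem _)
    · rw [le_mp (pow_ne_zero 2 h0), pow_two, mp_mul h0 h0] at h3
      rw [le_mp h0] at h2
      omega

/-- the iterated differences, at any place -/
theorem dl_gen {z : Finset (Fin (2 * g + 1)) → 𝓞 K} {y : K}
    {v : HeightOneSpectrum (𝓞 K)} {l : List (Fin (2 * g + 1) × Fin (2 * g + 1))}
    {B : Finset (Fin (2 * g + 1))} (hl : l ≠ []) (hB : Apart l B)
    (hy : y = dl (fun S => (z S : K)) l B) {m : ℕ}
    (hz : ∀ S ∈ Sp g, ∀ S' ∈ Sp g, z S - z S' ∈ v.asIdeal ^ m)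
    {S₀ : Finset (Fin (2 * g + 1))} (hS₀ : S₀ ∈ Sp g) :
    v.valuation K y ≤ WithZero.exp (-(m : ℤ)) := by
  rw [hy, ← dl_sub_const' _ (z S₀ : K) hl]
  refine dl_le (fun S hS => ?_) l B hB
  have h1 := (mem_pow (z S - z S₀) m).1 (hz S hS S₀ hS₀)
  push_cast at h1
  exact h1

/-- the iterated differences, at a place where exactly two points are congruent -/
theorem dl_single {a : Fin (2 * g + 1) → 𝓞 K} (h : Dif a)
    {z : Finset (Fin (2 * g + 1)) → 𝓞 K} {y : K}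
    (hL : Linear (fun i => (a i : K)) fun S => (z S : K))
    {v : HeightOneSpectrum (𝓞 K)} {l : List (Fin (2 * g + 1) × Fin (2 * g + 1))}
    {B : Finset (Fin (2 * g + 1))} (hB : Apart l B)
    (hy : y = dl (fun S => (z S : K)) l B) {m : ℕ}
    (hz : ∀ S ∈ Sp g, ∀ S' ∈ Sp g, z S - z S' ∈ v.asIdeal ^ m)
    {p : Fin (2 * g + 1) × Fin (2 * g + 1)} (hs : Single a p v) (hp : p ∈ l) :
    v.valuation K y ≤ WithZero.exp (-((m + mp v (a p.1 - a p.2) : ℕ) : ℤ)) := by
  have ha := h.inj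
  have hpd := (hB.2.1 p hp).1
  have hinj : Function.Injective fun i => (a i : K) := fun i j hij => ha (by
    have h1 : (a i : K) = (a j : K) := hij
    exact_mod_cast h1)
  rw [hy]
  have h1 : v.valuation K ((a p.1 : K) - (a p.2 : K)) * WithZero.exp (-(m : ℤ)) ≤
      WithZero.exp (-((m + mp v (a p.1 - a p.2) : ℕ) : ℤ)) := by
    have h2 : v.valuation K ((a p.1 : K) - (a p.2 : K)) ≤
        WithZero.exp (-((mp v (a p.1 - a p.2) : ℕ) : ℤ)) := by
      rw [← dif_co]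
      refine (Pool.Agent.H433.GT.mem_pow _ _).1 ?_
      rw [le_mp (h p (mem_prs.2 hpd))]
    calc v.valuation K ((a p.1 : K) - (a p.2 : K)) * WithZero.exp (-(m : ℤ))
        ≤ WithZero.exp (-((mp v (a p.1 - a p.2) : ℕ) : ℤ)) * WithZero.exp (-(m : ℤ)) := by
          exact mul_le_mul_left h2 _
      _ = WithZero.exp (-((m + mp v (a p.1 - a p.2) : ℕ) : ℤ)) := by
          rw [← WithZero.exp_add]
          congr 1
          push_cast
          ring
  refine dl_le_mem (p := p) (fun T hT h2 h3 => ?_) l B hB hp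
  refine (loc_II hL hinj (single_units hs) hpd.ne hT h2 h3 (b := WithZero.exp (-(m : ℤ)))
    fun S hS S' hS' => ?_).trans h1
  have h4 := (Pool.Agent.H433.GT.mem_pow (z S - z S') m).1 (hz S hS S' hS')
  push_cast at h4
  exact h4

/-- the contribution of the places which are not simple -/
noncomputable def ex {a : Fin (2 * g + 1) → 𝓞 K} (h : Dif a) : ℝ :=
  ∑ p ∈ prs (2 * g + 1), (Real.log (Nm (a p.1 - a p.2)) - Lp 1 h p)

open Classical in
/-- the contribution of the places without the property `P` -/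
noncomputable def exs {a : Fin (2 * g + 1) → 𝓞 K} (h : Dif a)
    (P : HeightOneSpectrum (𝓞 K) → Prop) : ℝ :=
  ∑ v ∈ Vf h, (if P v then 0 else (mu a v : ℝ)) * Real.log (nv v)

theorem mu_eq_zero {a : Fin (2 * g + 1) → 𝓞 K} (h : Dif a) {v : HeightOneSpectrum (𝓞 K)}
    (hv : v ∉ Vf h) : mu a v = 0 := by
  unfold mu
  refine sum_eq_zero fun q hq => ?_
  by_contra hne
  exact hv (mem_Vf h hq ((mem_iff_mp (h q hq)).2 (by omega)))

theorem sum_exs {a : Fin (2 * g + 1) → 𝓞 K} (h : Dif a) {V : Finset (HeightOneSpectrum (𝓞 K))}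
    (hVf : Vf h ⊆ V) {P : HeightOneSpectrum (𝓞 K) → Prop} (f : HeightOneSpectrum (𝓞 K) → ℝ)
    (h1 : ∀ v, f v ≤ mu a v) (h2 : ∀ v, P v → f v ≤ 0) :
    ∑ v ∈ V, f v * Real.log (nv v) ≤ exs h P := by
  classical
  have e1 : exs h P = ∑ v ∈ V, (if P v then 0 else (mu a v : ℝ)) * Real.log (nv v) := by
    unfold exs
    refine sum_subset hVf fun v _ hv => ?_
    rw [mu_eq_zero h hv]
    simp
  rw [e1]
  refine sum_le_sum fun v _ => mul_le_mul_of_nonneg_right ?_ (log_nv_pos v).le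
  split_ifs with hP
  · exact h2 v hP
  · exact h1 v

theorem sum_ex {a : Fin (2 * g + 1) → 𝓞 K} (h : Dif a) {V : Finset (HeightOneSpectrum (𝓞 K))}
    (hVf : Vf h ⊆ V) (f : HeightOneSpectrum (𝓞 K) → ℝ) (h1 : ∀ v, f v ≤ mu a v)
    (h2 : ∀ v, ∀ p ∈ prs (2 * g + 1), Simple 1 a p v → f v ≤ 0) :
    ∑ v ∈ V, f v * Real.log (nv v) ≤ ex h := by
  classical
  have e4 (p : Fin (2 * g + 1) × Fin (2 * g + 1)) (hp : p ∈ prs (2 * g + 1)) :
      Real.log (Nm (a p.1 - a p.2)) =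
      ∑ v ∈ V, (mp v (a p.1 - a p.2) : ℝ) * Real.log (nv v) :=
    log_Nm (h p hp) V fun v hv => hVf (mem_Vf h hp hv)
  have e5 (p : Fin (2 * g + 1) × Fin (2 * g + 1)) (hp : p ∈ prs (2 * g + 1)) : Lp 1 h p =
      ∑ v ∈ V, (if Simple 1 a p v then (1 : ℝ) else 0) * Real.log (nv v) := by
    unfold Lp
    rw [← sum_subset hVf fun v _ hv => ?_]
    · refine sum_congr rfl fun v _ => ?_
      split_ifs <;> simp
    · rw [if_neg, zero_mul]
      intro hs
      exact hv (mem_Vf h hp hs.2.1)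
  have e6 : ex h = ∑ v ∈ V, (∑ p ∈ prs (2 * g + 1), ((mp v (a p.1 - a p.2) : ℝ) -
      if Simple 1 a p v then (1 : ℝ) else 0)) * Real.log (nv v) := by
    unfold ex
    rw [sum_congr rfl fun p hp => by rw [e4 p hp, e5 p hp, ← sum_sub_distrib], sum_comm]
    refine sum_congr rfl fun v _ => ?_
    rw [sum_mul]
    exact sum_congr rfl fun p _ => by ring
  rw [e6]
  refine sum_le_sum fun v _ => mul_le_mul_of_nonneg_right ?_ (log_nv_pos v).le
  have hmp (p : Fin (2 * g + 1) × Fin (2 * g + 1)) (hp : p ∈ prs (2 * g + 1)) :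
      (0 : ℝ) ≤ (mp v (a p.1 - a p.2) : ℝ) - if Simple 1 a p v then (1 : ℝ) else 0 := by
    split_ifs with hs
    · have : 1 ≤ mp v (a p.1 - a p.2) := (mem_iff_mp (h p hp)).1 hs.2.1
      have : (1 : ℝ) ≤ mp v (a p.1 - a p.2) := by exact_mod_cast this
      linarith
    · simp
  by_cases hex : ∃ p ∈ prs (2 * g + 1), Simple 1 a p v
  · obtain ⟨p, hp, hs⟩ := hex
    exact (h2 v p hp hs).trans (sum_nonneg hmp)
  · push Not at hex
    rw [sum_congr rfl fun p hp => by rw [if_neg (hex p hp), sub_zero]]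
    have := h1 v
    unfold mu at this
    push_cast at this
    exact this

/-- the place is simple -/
def Smp (a : Fin (2 * g + 1) → 𝓞 K) (v : HeightOneSpectrum (𝓞 K)) : Prop :=
  ∃ p ∈ prs (2 * g + 1), Simple 1 a p v

/-- exactly two points are congruent modulo `v` -/
def Sng (a : Fin (2 * g + 1) → 𝓞 K) (v : HeightOneSpectrum (𝓞 K)) : Prop :=
  ∃ p ∈ prs (2 * g + 1), Single a p v

theorem exs_le {a : Fin (2 * g + 1) → 𝓞 K} (h : Dif a) : exs h (Smp a) ≤ ex h := by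
  classical
  unfold exs
  refine sum_ex h subset_rfl (fun v => if Smp a v then 0 else (mu a v : ℝ)) (fun v => ?_)
    fun v p hp hs => ?_
  · split_ifs
    · exact Nat.cast_nonneg _
    · exact le_rfl
  · rw [if_pos ⟨p, hp, hs⟩]

/-- a general estimate for ideals -/
theorem norm_le {a : Fin (2 * g + 1) → 𝓞 K} (h : Dif a) {P : HeightOneSpectrum (𝓞 K) → Prop}
    {I J : Ideal (𝓞 K)} (hI : I ≠ ⊥) (hJ : J ≠ ⊥)
    (h1 : ∀ v : HeightOneSpectrum (𝓞 K), mi v J ≤ 2 * mi v I + mu a v)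
    (h2 : ∀ v : HeightOneSpectrum (𝓞 K), P v → mi v J ≤ 2 * mi v I) :
    Real.log (Ideal.absNorm J) ≤ 2 * Real.log (Ideal.absNorm I) + exs h P := by
  classical
  set V : Finset (HeightOneSpectrum (𝓞 K)) := (Ideal.finite_factors hI).toFinset ∪
    ((Ideal.finite_factors hJ).toFinset ∪ Vf h) with hV
  have hVI (v : HeightOneSpectrum (𝓞 K)) (hv : v.asIdeal ∣ I) : v ∈ V := by
    rw [hV, mem_union, Set.Finite.mem_toFinset]
    exact Or.inl hv
  have hVJ (v : HeightOneSpectrum (𝓞 K)) (hv : v.asIdeal ∣ J) : v ∈ V := by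
    rw [hV, mem_union, mem_union, Set.Finite.mem_toFinset, Set.Finite.mem_toFinset]
    exact Or.inr (Or.inl hv)
  have hVf : Vf h ⊆ V := fun v hv => by
    rw [hV, mem_union, mem_union]
    exact Or.inr (Or.inr hv)
  rw [log_absNorm hI V hVI, log_absNorm hJ V hVJ]
  have h3 := sum_exs h hVf (P := P) (fun v => (mi v J : ℝ) - 2 * mi v I) (fun v => ?_)
    fun v hs => ?_
  · have h4 : ∑ v ∈ V, ((mi v J : ℝ) - 2 * mi v I) * Real.log (nv v) =
        ∑ v ∈ V, (mi v J : ℝ) * Real.log (nv v) -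
          2 * ∑ v ∈ V, (mi v I : ℝ) * Real.log (nv v) := by
      rw [mul_sum, ← sum_sub_distrib]
      exact sum_congr rfl fun v _ => by ring
    rw [h4] at h3
    linarith
  · have h5 : (mi v J : ℝ) ≤ 2 * mi v I + mu a v := by exact_mod_cast h1 v
    linarith
  · have h5 : (mi v J : ℝ) ≤ 2 * mi v I := by exact_mod_cast h2 v hs
    linarith

/-- the ideal of the fourth powers of the theta functions at the double of a point -/
theorem norm_al {a : Fin (2 * g + 1) → 𝓞 K} (h : Dif a) {z : Finset (Fin (2 * g + 1)) → 𝓞 K}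
    {S₀ : Sp g} (h0 : z S₀ ≠ 0) {t : K} (hL : Linear (fun i => (a i : K)) fun S => (z S : K))
    (hS : ∀ S ∈ Sp g, ∃ q, (z S : K) = t * q ^ 2) :
    Real.log (Ideal.absNorm (Ideal.span (Set.range fun S : Sp g => W a S * z S ^ 2))) ≤
      2 * Real.log (Ideal.absNorm (Ideal.span (Set.range fun S : Sp g => z S))) +
        exs h (Smp a) := by
  obtain ⟨zz, hzz⟩ : ∃ zz : Sp g → 𝓞 K, zz = fun S : Sp g => z S := ⟨_, rfl⟩
  obtain ⟨ww, hww⟩ : ∃ ww : Sp g → 𝓞 K, ww = fun S : Sp g => W a S * z S ^ 2 := ⟨_, rfl⟩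
  have ez (S : Sp g) : zz S = z S := by rw [hzz]
  have ew (S : Sp g) : ww S = W a S * z S ^ 2 := by rw [hww]
  have hb : zz S₀ ≠ 0 := by rwa [ez]
  have hb' : ww S₀ ≠ 0 := by
    rw [ew]
    exact mul_ne_zero (Wne h _) (pow_ne_zero 2 h0)
  rw [← hzz, ← hww]
  have key (v : HeightOneSpectrum (𝓞 K)) : ∃ S : Sp g, z S ∉ v.asIdeal ^
      (mi v (Ideal.span (Set.range zz)) + 1) := by
    have h1 := (le_mi_span (v := v) hb (mi v (Ideal.span (Set.range zz)) + 1)).not.1 (by omega)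
    push Not at h1
    obtain ⟨S, hS⟩ := h1
    exact ⟨S, by rwa [ez] at hS⟩
  refine norm_le h (span_ne hb) (span_ne hb') (fun v => ?_) fun v ⟨p, hp, hs⟩ => ?_
  · obtain ⟨S, hS⟩ := key v
    have h1 := loc_gen h hS
    by_contra hcon
    rw [not_le] at hcon
    have h2 := (le_mi_span hb' _).1 hcon S
    rw [ew] at h2
    exact h1 h2
  · obtain ⟨S, hS'⟩ := key v
    have h3 := (le_mi_span (v := v) hb _).1 le_rfl
    obtain ⟨S', hSp', h1⟩ := loc_simple h hL hS hp hs (fun T hT => by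
      have h4 := h3 ⟨T, hT⟩
      rwa [ez] at h4) S.2 hS'
    by_contra hcon
    rw [not_le] at hcon
    have h2 := (le_mi_span hb' _).1 hcon ⟨S', hSp'⟩
    rw [ew] at h2
    exact h1 h2

/-- The ideal of the products of differences. -/
theorem norm_W {a : Fin (2 * g + 1) → 𝓞 K} (h : Dif a) (S₀ : Sp g)
    (hg : ∀ p ∈ prs (2 * g + 1), ∃ S ∈ Sp g, p ∉ Gs S) :
    Real.log (Ideal.absNorm (Ideal.span (Set.range fun S : Sp g => W a S))) ≤
      exs h (Smp a) := by
  obtain ⟨ww, hww⟩ : ∃ ww : Sp g → 𝓞 K, ww = fun S : Sp g => W a S := ⟨_, rfl⟩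
  have ew (S : Sp g) : ww S = W a S := by rw [hww]
  have h0 : ww S₀ ≠ 0 := by
    rw [ew]
    exact Wne h S₀
  rw [← hww]
  have hT : (⊤ : Ideal (𝓞 K)) ≠ ⊥ := top_ne_bot
  have hmT (v : HeightOneSpectrum (𝓞 K)) : mi v ⊤ = 0 := by
    have h1 := le_mi (v := v) hT 1
    by_contra hne
    have h2 : v.asIdeal ^ 1 ∣ ⊤ := h1.2 (by omega)
    rw [pow_one, Ideal.dvd_iff_le, top_le_iff] at h2
    exact v.isPrime.ne_top h2
  have h1 := norm_le h (P := Smp a) hT (span_ne h0) (fun v => ?_) fun v ⟨p, hp, hs⟩ => ?_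
  · rw [Ideal.absNorm_top] at h1
    simpa using h1
  · rw [hmT, mul_zero, zero_add]
    have h2 := mp_W_le h v S₀
    have h3 := (le_mi_span (v := v) h0 _).1 le_rfl S₀
    rw [ew, le_mp (Wne h S₀)] at h3
    exact h3.trans h2
  · rw [hmT, mul_zero, Nat.le_zero]
    by_contra hne
    have h2 : 1 ≤ mi v (Ideal.span (Set.range ww)) := by omega
    rw [le_mi_span h0] at h2
    obtain ⟨S, hS, hs'⟩ := hg p hp
    have h3 := h2 ⟨S, hS⟩
    rw [pow_one, ew] at h3
    unfold W at h3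
    obtain ⟨q, hq, hqv⟩ := (Ideal.IsPrime.prod_mem_iff (hp := v.isPrime)).1 h3
    have := hs.2.2.2 q (Gs_sub S hq) hqv
    rw [this] at hq
    exact hs' hq

end Pool.Agent.H433.HG
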